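import Pool.Agent.H38.TC.All
import Pool.Agent.H37.TC.Frs

/-!
# TC: the geometry at several places of a column, with one system of own slopes

`geoQ`: one event, frames which differ by functions of the time, slopes `Sm` = multiples of the own
slopes at the first place.
-/

set_option autoImplicit false

namespace Pool.TCO

open Finset Real MvPolynomial
open Pool.Agent.H49.Ent Pool.Agent.H32.Dense Pool.STK Pool.STAT Pool.MIC.Frm Pool.MIC7 Pool.FRM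
open Pool.GSD Pool.TC Pool.P4O
open Pool.BFL (Pb)
open Pool.P4 (t0 rt pp PthC FraC bb ze zt z0 GoodS FrP exp_mz)

theorem bind_const (t : ℝ) (A : PN) :
    bind₁ (fun _ : ℕ => (C t : PN)) A = C (eval (fun _ => t) A) := by
  induction A using MvPolynomial.induction_on with
  | C a => rw [bind₁_C_right, eval_C]
  | add p q hp hq => rw [map_add, map_add, hp, hq, C_add]
  | mul_X p i hp => rw [map_mul, map_mul, hp, bind₁_X_right, eval_X, C_mul]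

theorem bind_zero {A : PN} (hA : A.vars ⊆ {0}) (t : ℝ) : ∃ α : ℝ, bind₁ (Pool.MIC7.tx t) A = C α := by
  refine ⟨eval (fun _ => t) A, ?_⟩
  rw [← bind_const]
  unfold bind₁
  refine eval₂Hom_congr' rfl (fun i hi _ => ?_) rfl
  have h0 : i = 0 := Finset.mem_singleton.1 (hA hi)
  subst h0
  unfold Pool.MIC7.tx
  rw [if_pos rfl]

theorem fz_add {P P' : ℕ → PN} {l : ℕ} (hl : 1 ≤ l) {A : PN} (hA : A.vars ⊆ {0})
    (h : P' l = P l + A) (t : ℝ) : ∃ α : ℝ, fz t P' l = fz t P l + C α := by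
  obtain ⟨α, hα⟩ := bind_zero hA t
  refine ⟨α, ?_⟩
  rw [fz_pos t P' (by omega), fz_pos t P (by omega), h, map_add, hα]

/-- Larger degrees and constants. -/
theorem goodS_up {D : NDat2} {n K₁ K₂ w₀ z M : ℕ} {C₁ C₂ : ℝ} {ω : D.Ω}
    (h : GoodS D n K₁ w₀ z M C₁ ω) (hK : K₁ ≤ K₂) (hC : C₁ ≤ C₂) : GoodS D n K₂ w₀ z M C₂ ω :=
  ⟨h.fc.monoK hK hC, h.fv.mono hK hC, h.pc⟩

theorem frp_up {D : NDat2} {n K₁ K₂ z i j r : ℕ} {C₁ C₂ : ℝ} {P : ℕ → PN} {ω : D.Ω}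
    (h : FrP D n K₁ z i j r C₁ P ω) (hK : K₁ ≤ K₂) (hC : C₁ ≤ C₂) : FrP D n K₂ z i j r C₂ P ω :=
  ⟨h.tri, fun l => (h.deg l).trans hK, (h.mono hC).near⟩

theorem ownFr_up {D : NDat2} {n K₁ K₂ z M : ℕ} {C₁ C₂ : ℝ} {E : D.Ω → Prop} {V : D.Ω → ℕ → PN}
    (h : OwnFr D n K₁ z M C₁ E V) (hK : K₁ ≤ K₂) (hC : C₁ ≤ C₂) : OwnFr D n K₂ z M C₂ E V :=
  fun ω hω => ⟨(h ω hω).1, fun l => ((h ω hω).2.1 l).trans hK, (h ω hω).2.2.1,
    fun i hi j hj l hl => ((h ω hω).2.2.2 i hi j hj l hl).trans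
      (div_le_div_of_nonneg_right (exp_mz hC z) (by positivity))⟩

/-- The shifted frames, as functions of the context. -/
theorem shf_ex {D : NDat2} {n K K' J a₀ w₀ z M i₀ i j r : ℕ} {lam gam : ℕ → ℝ} {κ C₁ : ℝ}
    {q : D.Ω → ℝ} (hO : D.Ok2 n K J a₀ w₀ z M lam gam κ C₁ q) (hii : i₀ ≤ i) (hi : i ≤ M)
    (hj : j ≤ M) {E : D.Ω → Prop} (hE : ∀ ω, E ω → 0 < q ω) {K'' : ℕ} (hK : K' ≤ K'')
    (P P' : D.Γ × D.Γ → ℕ → PN) (hPt : ∀ v, TriN (P v))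
    (hPt' : ∀ v, TriN (P' v)) (hPd' : ∀ v l, (P' v l).totalDegree ≤ K')
    (hdeg : ∀ v v' l, (Pool.TC37F.shf n (P v) (P' v') l).totalDegree ≤ K'') :
    ∃ P'' : D.Γ × D.Γ → ℕ → PN, (∀ v, TriN (P'' v)) ∧ (∀ v l, (P'' v l).totalDegree ≤ K'') ∧
      ∀ ω, E ω → P'' (bb D i j r ω) =
        Pool.TC37F.shf n (P (bb D i₀ j r ω)) (P' (bb D i j r ω)) := by
  classical
  have hex : ∀ v : D.Γ × D.Γ, ∃ R : ℕ → PN, TriN R ∧ (∀ l, (R l).totalDegree ≤ K'') ∧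
      ∀ ω, E ω → bb D i j r ω = v → R =
        Pool.TC37F.shf n (P (bb D i₀ j r ω)) (P' (bb D i j r ω)) := by
    intro v
    by_cases hv : ∃ ω, E ω ∧ bb D i j r ω = v
    · obtain ⟨ω₀, hω₀, hb₀⟩ := hv
      refine ⟨Pool.TC37F.shf n (P (bb D i₀ j r ω₀)) (P' (bb D i j r ω₀)),
        Pool.TC37F.shf_tri (hPt _) (hPt' _), fun l => hdeg _ _ l, fun ω hω hb => ?_⟩
      have hbb : bb D i j r ω = bb D i j r ω₀ := hb.trans hb₀.symm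
      have e1 : D.c i j ω = D.c i j ω₀ := congrArg Prod.fst hbb
      have e2 : D.c (i - 1) (j - r) ω = D.c (i - 1) (j - r) ω₀ := congrArg Prod.snd hbb
      have e3 : D.c i₀ j ω = D.c i₀ j ω₀ :=
        Pool.P4.det_c hO hi hj hii ω ω₀ (hE ω hω) (hE ω₀ hω₀) e1
      have e4 : D.c (i₀ - 1) (j - r) ω = D.c (i₀ - 1) (j - r) ω₀ :=
        Pool.P4.det_c hO (by omega : i - 1 ≤ M) (by omega : j - r ≤ M)
          (Nat.sub_le_sub_right hii 1) ω ω₀ (hE ω hω) (hE ω₀ hω₀) e2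
      have e5 : bb D i₀ j r ω = bb D i₀ j r ω₀ := Prod.ext e3 e4
      rw [hbb, e5]
    · exact ⟨P' v, hPt' v, fun l => (hPd' v l).trans hK, fun ω hω hb => absurd ⟨ω, hω, hb⟩ hv⟩
  choose P'' h1 h2 h3 using hex
  exact ⟨P'', h1, h2, fun ω hω => h3 _ ω hω rfl⟩

open Classical in
/-- **The geometry at several places of a column.** The places are `(pl m, j)`, `m ≤ Q`. One event
`E`, closed frames `P m` which differ from `P 0` by functions of the time, own frames `V`; the slopes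
at `(pl m, j)` are the multiples `Sm` of the own slopes at `(pl 0, j)`. -/
theorem geoQ (n d K : ℕ) (th : ℝ) (lam gam : ℕ → ℝ) (C₁ : ℝ) (hn : 1 ≤ n) (hC₁ : 1 ≤ C₁)
    (hlam : ∀ l, 1 ≤ l → l ≤ n → lam l = 1) (hgam : ∀ l, 0 ≤ gam l) :
    ∃ (K' : ℕ) (C : ℝ), 1 ≤ C ∧
    ∀ (y r r2 r' r'' a M : ℕ) (e : ℝ), 0 < e → ∃ (κ : ℝ) (z₀ : ℕ), 0 < κ ∧
    ∀ (J a₀ w₀ z j Q : ℕ) (pl : ℕ → ℕ) (D : NDat2) (q : D.Ω → ℝ), z₀ ≤ z →
      (∀ m ≤ Q, Plc n d th gam y r r2 r' r'' a M (pl m) j) → (∀ m ≤ Q, pl 0 ≤ pl m) →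
      D.Ok2 n K J a₀ w₀ z M lam gam κ C₁ q → D.TmU J w₀ z κ q →
      ∃ (E : D.Ω → Prop) (P : ℕ → D.Γ × D.Γ → ℕ → PN) (V : D.Ω → ℕ → PN),
        Pb q (fun ω => ¬ E ω) ≤ e ∧ OwnFr D n K' z M C E V ∧
        (∀ m ≤ Q, ∀ ω, E ω → 0 < q ω ∧ GoodS D n K' w₀ z M C ω ∧
          FrP D n K' z (pl m) j r C (P m (bb D (pl m) j r ω)) ω) ∧
        (∀ m ≤ Q, ∀ ω, E ω → ∀ l, 1 ≤ l → ∃ A : PN, A.vars ⊆ {0} ∧
          P m (bb D (pl m) j r ω) l = P 0 (bb D (pl 0) j r ω) l + A) ∧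
        ∀ m ≤ Q,
          Geo D n d K' J w₀ z (pl m) j r r2 r' r'' th gam C (exp (C * z) / 2 ^ (y * z)) q E (P m)
            ⟨Sm D n (pl 0) (pl m) j r (sl th gam n) E (P 0) V,
              Sm D n (pl 0) (pl m) j r (sl0 th gam n) E (P 0) V⟩ ∧
          Dep D n d J w₀ z M (pl m) j r C q E (P m) := by
  obtain ⟨K₁, Ca, hK₁, hCa, hev⟩ := good_ev Pool.P4.pth_stmt Pool.P4.cfr_stmt n K lam gam C₁ hn hC₁
  obtain ⟨K₂, Cb, hK₂, hCb, hshf⟩ := Pool.TC37F.frp_shf n K K₁ lam C₁ Ca hC₁ hCa hlam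
  obtain ⟨K₃, hK₃⟩ : ∃ K₃, K₃ = max K₂ (K₁ + K₁ * (K₁ + 1) ^ n) := ⟨_, rfl⟩
  have hK23 : K₂ ≤ K₃ := by rw [hK₃]; exact le_max_left _ _
  have hK13 : K₁ ≤ K₃ := hK₂.trans hK23
  have hC0 : 0 ≤ Cb := hCa.trans hCb
  obtain ⟨Cg, hCg1, hCg, hgeo⟩ := geo_scl Pool.TC37L.lin_stmt Pool.TC.dep_stmt n d K K₃ th lam gam
    C₁ Cb hn hC₁ hC0 hlam hgam
  refine ⟨K₃, Cg, hCg1, ?_⟩
  intro y r r2 r' r'' a M e he
  rcases Nat.lt_or_ge M 2 with hM | hM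
  · refine ⟨1, 0, one_pos, ?_⟩
    intro J a₀ w₀ z j Q pl D q _ hP
    have := plc_two hn hgam (hP 0 (Nat.zero_le _))
    omega
  obtain ⟨κ, z₁, hκ, hev⟩ := hev M e hM he
  obtain ⟨z₂, hgeo⟩ := hgeo y r r2 r' r'' a M
  refine ⟨κ, max (max z₁ z₂) 1, hκ, ?_⟩
  intro J a₀ w₀ z j Q pl D q hz hP hpl hO hT
  obtain ⟨E, hE, hEd⟩ := hev J a₀ w₀ z D q (by omega) hO hT
  have hi' : ∀ m ≤ Q, pl m < M := fun m hm => by have := (hP m hm).i2; omega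
  have hj : j < M := by have := (hP 0 (Nat.zero_le _)).j2; omega
  have h01 : 1 ≤ pl 0 := by
    have h1 := (hP 0 (Nat.zero_le _)).y1
    have h2 := (hP 0 (Nat.zero_le _)).stp.s7
    have h3 := (hP 0 (Nat.zero_le _)).a1
    omega
  have hfr : ∀ m, ∃ P : D.Γ × D.Γ → ℕ → PN, m ≤ Q → (∀ v, TriN (P v)) ∧
      (∀ v l, (P v l).totalDegree ≤ K₁) ∧
      ∀ ω, E ω → FrP D n K₁ z (pl m) j r Ca (P (bb D (pl m) j r ω)) ω := by
    intro m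
    by_cases hm : m ≤ Q
    · obtain ⟨P, h1⟩ := frames_ex (r := r) hO (hi' m hm) hj hEd
      exact ⟨P, fun _ => h1⟩
    · exact ⟨fun _ _ => 0, fun h => absurd h hm⟩
  choose F hF using hfr
  have hF0 := hF 0 (Nat.zero_le _)
  obtain ⟨V, hV⟩ := own_ex hEd
  have hdeg : ∀ m ≤ Q, ∀ v v' l,
      (Pool.TC37F.shf n (F 0 v) (F m v') l).totalDegree ≤ K₃ := fun m hm v v' l => by
    refine (Pool.TC37F.shf_deg (hF0.1 v) ((hF m hm).1 v') (hF0.2.1 v) ((hF m hm).2.1 v') l).trans ?_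
    rw [hK₃]
    exact le_max_right _ _
  have hsh : ∀ m, ∃ P : D.Γ × D.Γ → ℕ → PN, m ≤ Q → (∀ v, TriN (P v)) ∧
      (∀ v l, (P v l).totalDegree ≤ K₃) ∧ ∀ ω, E ω →
        FrP D n K₃ z (pl m) j r Cb (P (bb D (pl m) j r ω)) ω ∧
        ∀ l, 1 ≤ l → ∃ A : PN, A.vars ⊆ {0} ∧
          P (bb D (pl m) j r ω) l = F 0 (bb D (pl 0) j r ω) l + A := by
    intro m
    by_cases hm : m ≤ Q
    · obtain ⟨P, p1, p2, p3⟩ := shf_ex (r := r) hO (hpl m hm) (hi' m hm).le hj.le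
        (fun ω hω => (hEd ω hω).1) hK13 (F 0) (F m) hF0.1 (hF m hm).1 (hF m hm).2.1
        (hdeg m hm)
      refine ⟨P, fun _ => ⟨p1, p2, fun ω hω => ⟨?_, fun l hl => ?_⟩⟩⟩
      · rw [p3 ω hω]
        exact frp_up (hshf D J a₀ w₀ z M (pl 0) (pl m) j r gam κ q (by omega) hO h01 (hpl m hm)
          (hi' m hm).le hj.le _ _ ω (hF0.2.2 ω hω) ((hF m hm).2.2 ω hω)) hK23 le_rfl
      · rw [p3 ω hω]
        exact ⟨_, Pool.TC37F.sh1_vars ((hF m hm).1 _) l, Pool.TC37F.shf_pos n _ _ hl⟩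
    · exact ⟨fun _ _ => 0, fun h => absurd h hm⟩
  choose G hG using hsh
  -- the frames: `F 0` at the first place, the shifted ones at the others
  obtain ⟨P, hPdef⟩ : ∃ P : ℕ → D.Γ × D.Γ → ℕ → PN, P = fun m => if m = 0 then F 0 else G m :=
    ⟨_, rfl⟩
  have hP0 : P 0 = F 0 := by rw [hPdef]; exact if_pos rfl
  have hPm : ∀ m, m ≠ 0 → P m = G m := fun m hm => by rw [hPdef]; exact if_neg hm
  have hall : ∀ m ≤ Q, (∀ v, TriN (P m v)) ∧ (∀ v l, (P m v l).totalDegree ≤ K₃) ∧ ∀ ω, E ω →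
      FrP D n K₃ z (pl m) j r Cb (P m (bb D (pl m) j r ω)) ω ∧
      ∀ l, 1 ≤ l → ∃ A : PN, A.vars ⊆ {0} ∧
        P m (bb D (pl m) j r ω) l = P 0 (bb D (pl 0) j r ω) l + A := by
    intro m hm
    rw [hP0]
    by_cases h0 : m = 0
    · subst h0
      rw [hP0]
      refine ⟨hF0.1, fun v l => (hF0.2.1 v l).trans hK13, fun ω hω =>
        ⟨frp_up (hF0.2.2 ω hω) hK13 hCb, fun l _ => ⟨0, ?_, (add_zero _).symm⟩⟩⟩
      rw [vars_0]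
      exact Finset.empty_subset _
    · rw [hPm m h0]
      exact hG m hm
  have hEg : ∀ m ≤ Q, ∀ ω, E ω → 0 < q ω ∧ GoodS D n K₃ w₀ z M Cb ω ∧
      FrP D n K₃ z (pl m) j r Cb (P m (bb D (pl m) j r ω)) ω := fun m hm ω hω =>
    ⟨(hEd ω hω).1, goodS_up (hEd ω hω).2 hK13 hCb, ((hall m hm).2.2 ω hω).1⟩
  have hV' : OwnFr D n K₃ z M Cb E V := ownFr_up hV hK13 hCb
  refine ⟨E, P, V, hE, ownFr_up hV' le_rfl hCg, fun m hm ω hω => ⟨(hEg m hm ω hω).1,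
    (hEg m hm ω hω).2.1.mono hCg, (hEg m hm ω hω).2.2.mono hCg⟩,
    fun m hm ω hω => ((hall m hm).2.2 ω hω).2, fun m hm => ?_⟩
  exact hgeo J a₀ w₀ z (pl 0) (pl m) j D q κ (by omega) (hP 0 (Nat.zero_le _)) (hP m hm)
    (hpl m hm) hO (P 0) (P m) E (hall m hm).1 (hall m hm).2.1
    (fun ω hω => (hEg 0 (Nat.zero_le _) ω hω).2.2) (hEg m hm)
    (fun ω hω l hl => by
      obtain ⟨A, hA, h1⟩ := ((hall m hm).2.2 ω hω).2 l hl
      exact fz_add hl hA h1 _) V hV'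

end Pool.TCO
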