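import Pool.Agent.H38.TC.Cg
import Pool.Agent.H37.TC.Lin
import Pool.Agent.H14.TC.Dep
import Pool.Agent.H14.P4.Cfr2
import Pool.Agent.H70.P4.Pth

/-!
# TC: the geometry, without hypotheses

`geo_stmt`: the geometry of a place.
-/

set_option autoImplicit false

namespace Pool.TCO

open Pool.TC

/-- **(GEO)** -/
theorem geo_stmt : Pool.TC.GeoStmt :=
  geo_of Pool.P4.pth_stmt Pool.P4.cfr_stmt Pool.TC37L.lin_stmt Pool.TC.dep_stmt

end Pool.TCO
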