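import Pool.Agent.H38.TC.Scl

/-!
# TC: the geometry of a cell with other slopes

`geo_cg`: `Geo` is stable under a small change of the slopes. `geo_scl`: `Geo` and `Dep` at
`(i', j)` with the multiples of the own slopes at `(i, j)`.
-/

set_option autoImplicit false

namespace Pool.TCO

open Finset Real MvPolynomial
open Pool.Agent.H49.Ent Pool.Agent.H32.Dense Pool.STK Pool.STAT Pool.MIC.Frm Pool.MIC7 Pool.FRM
open Pool.GSD Pool.TC Pool.P4O
open Pool.BFL (Pb)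
open Pool.P4 (t0 rt pp PthC FraC bb ze zt z0 GoodS FrP exp_mz)

theorem TT_off {Sl : ℕ → Prop} (c : ℕ → ℕ → ℝ) {k : ℕ} (hk : ¬ Sl k) :
    ∀ u, TT Sl c u k = 0 := by
  intro u
  induction u using Nat.strong_induction_on with
  | _ u ih =>
    by_cases h : Sl u
    · rw [TT_sl c h, if_neg]
      intro h1
      subst h1
      exact hk h
    · rw [TT_gr c h]
      refine Finset.sum_eq_zero fun m hm => ?_
      rw [ih m (Finset.mem_Ico.1 hm).2, mul_zero]

theorem sS_off {n : ℕ} {Sl : ℕ → Prop} {g : ℕ → ℕ} {P V : ℕ → PN} {u k : ℕ}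
    (h : ¬ (1 ≤ u ∧ u ≤ n ∧ Sl k)) : sS n Sl g P V u k = 0 := by
  unfold sS SS
  split_ifs with h1
  · by_cases hk : Sl k
    · have hu : u = 0 := by
        by_contra h2
        exact h ⟨by omega, h1.1, hk⟩
      rw [TT_gr _ h1.2, hu]
      simp
    · exact TT_off _ hk u
  · rfl

theorem SV_off {D : NDat2} {n i j r : ℕ} {Sl : ℕ → Prop} {E : D.Ω → Prop}
    {P : D.Γ × D.Γ → ℕ → PN} {V : D.Ω → ℕ → PN} {ω : D.Ω} {u k : ℕ}
    (h : ¬ (1 ≤ u ∧ u ≤ n ∧ Sl k)) : SV D n i j r Sl E P V ω u k = 0 := by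
  unfold SV
  split_ifs
  · exact sS_off h
  · rfl

/-- A sum over the slow coordinates. -/
theorem sum_bd {n : ℕ} {Sl : ℕ → Prop} [DecidablePred Sl] {f g : ℕ → ℝ} {a b : ℝ} (ha : 0 ≤ a)
    (hb : 0 ≤ b) (hf : ∀ k, Sl k → |f k| ≤ a) (hg : ∀ k, Sl k → |g k| ≤ b) :
    |∑ k ∈ (range n).filter Sl, f k * g k| ≤ n * (a * b) := by
  refine (Finset.abs_sum_le_sum_abs _ _).trans ?_
  calc ∑ k ∈ (range n).filter Sl, |f k * g k| ≤ ∑ _k ∈ (range n).filter Sl, a * b :=
        Finset.sum_le_sum fun k hk => by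
          rw [abs_mul]
          exact mul_le_mul (hf k (Finset.mem_filter.1 hk).2) (hg k (Finset.mem_filter.1 hk).2)
            (abs_nonneg _) ha
    _ = (((range n).filter Sl).card : ℝ) * (a * b) := by rw [Finset.sum_const, nsmul_eq_mul]
    _ ≤ n * (a * b) := by
        refine mul_le_mul_of_nonneg_right ?_ (by positivity)
        have := Finset.card_filter_le (range n) Sl
        rw [card_range] at this
        exact_mod_cast this

section

variable {D : NDat2} {n d K' J w₀ z i j r r2 r' r'' : ℕ} {th : ℝ} {gam : ℕ → ℝ}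
  {q : D.Ω → ℝ} {E : D.Ω → Prop} {P : D.Γ × D.Γ → ℕ → PN}

open Classical in
/-- The heights with two systems of slopes. -/
theorem hs_cg {Sl : ℕ → Prop} {S S' : D.Ω → ℕ → ℕ → ℝ} {ω : D.Ω} {δ B : ℝ} {u : ℕ} (hδ : 0 ≤ δ)
    (hB : 0 ≤ B) (hd : ∀ k, Sl k → |S' ω u k - S ω u k| ≤ δ)
    (hb : ∀ k, Sl k → |ze D i j r P ω k| ≤ B) :
    |hs D n i j r P Sl S' ω u - hs D n i j r P Sl S ω u| ≤ n * (δ * B) := by
  have h := sum_bd (n := n) (f := fun k => S' ω u k - S ω u k) (g := fun k => ze D i j r P ω k)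
    hδ hB hd hb
  have e : hs D n i j r P Sl S' ω u - hs D n i j r P Sl S ω u =
      -∑ k ∈ (range n).filter Sl, (S' ω u k - S ω u k) * ze D i j r P ω k := by
    unfold hs
    simp_rw [sub_mul]
    rw [Finset.sum_sub_distrib]
    ring
  rw [e, abs_neg]
  exact h

open Classical in
/-- **Other slopes.** -/
theorem geo_cg {S S' : Slo D} {y : ℕ} {C : ℝ} (hC : 1 ≤ C) (hz : 2 * (n : ℝ) + 3 ≤ exp z)
    (h : Geo D n d K' J w₀ z i j r r2 r' r'' th gam C (exp (C * z) / 2 ^ (y * z)) q E P S)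
    (hbS : ∀ ω u k, |S'.S ω u k| ≤ exp (C * z)) (hbE : ∀ ω u k, |S'.El ω u k| ≤ exp (C * z))
    (htS : ∀ ω u k, u ≤ k → S'.S ω u k = 0) (htE : ∀ ω u k, u ≤ k → S'.El ω u k = 0)
    (hdS : ∀ ω, E ω → ∀ u, gr th gam n u → ∀ k, sl th gam n k →
      |S'.S ω u k - S.S ω u k| ≤ exp (C * z) / 2 ^ (y * z))
    (hdE : ∀ ω, E ω → ∀ l, sl1 th gam n l → ∀ k, sl0 th gam n k →
      |S'.El ω l k - S.El ω l k| ≤ exp (C * z) / 2 ^ (y * z)) :
    Geo D n d K' J w₀ z i j r r2 r' r'' th gam (2 * C + 1)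
      (exp ((2 * C + 1) * z) / 2 ^ (y * z)) q E P S' := by
  have hp0 : (0 : ℝ) < 2 ^ (y * z) := by positivity
  have hz0 : (0 : ℝ) ≤ z := Nat.cast_nonneg z
  have hn0 : (0 : ℝ) ≤ n := Nat.cast_nonneg n
  have hCC : C ≤ 2 * C + 1 := by linarith
  have x0 : exp (C * z) ≤ exp ((2 * C + 1) * z) := exp_mz hCC z
  have x1 : 1 ≤ exp (C * z) := Real.one_le_exp (by positivity)
  have x2 : (2 * (n : ℝ) + 3) * exp (C * z) * exp (C * z) ≤ exp ((2 * C + 1) * z) := by
    have e : exp ((2 * C + 1) * z) = exp z * exp (C * z) * exp (C * z) := by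
      rw [← Real.exp_add, ← Real.exp_add]
      congr 1
      ring
    rw [e]
    exact mul_le_mul_of_nonneg_right (mul_le_mul_of_nonneg_right hz (exp_pos _).le) (exp_pos _).le
  obtain ⟨τ, hτ⟩ : ∃ τ : ℝ, τ = exp (C * z) / 2 ^ (y * z) := ⟨_, rfl⟩
  have hτ0 : 0 < τ := by rw [hτ]; positivity
  have y0 : exp (C * z) / 2 ^ (y * z) ≤ exp ((2 * C + 1) * z) / 2 ^ (y * z) :=
    div_le_div_of_nonneg_right x0 hp0.le
  have y1 : 3 * τ ≤ exp ((2 * C + 1) * z) / 2 ^ (y * z) := by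
    rw [hτ, ← mul_div_assoc]
    refine div_le_div_of_nonneg_right ?_ hp0.le
    have : 3 * exp (C * z) ≤ (2 * (n : ℝ) + 3) * exp (C * z) * exp (C * z) := by
      have : (0 : ℝ) ≤ n * exp (C * z) := by positivity
      nlinarith
    linarith
  have y2 : τ + 2 * (n * (τ * exp (C * z))) ≤ exp ((2 * C + 1) * z) / 2 ^ (y * z) := by
    rw [hτ, le_div_iff₀ hp0]
    have e : (exp (C * z) / 2 ^ (y * z) + 2 * (n * (exp (C * z) / 2 ^ (y * z) * exp (C * z)))) *
        2 ^ (y * z) = exp (C * z) + 2 * n * (exp (C * z) * exp (C * z)) := by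
      field_simp
    rw [e]
    have : exp (C * z) ≤ 3 * (exp (C * z) * exp (C * z)) := by nlinarith
    linarith
  rw [← hτ] at h hdS hdE y0
  have hnn : ∀ ω, 0 < q ω → E ω → ∀ u, gr th gam n u →
      |nn D n i j r th gam P S'.S ω u - nn D n i j r th gam P S.S ω u| ≤
        n * (τ * exp (C * z)) := fun ω hq hω u hu =>
    hs_cg hτ0.le (exp_pos _).le (hdS ω hω u hu) fun k hk => h.bz ω hq hω k hk.1 hk.2.1.le
  have hla : ∀ ω, 0 < q ω → E ω → ∀ l, sl1 th gam n l →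
      |la D n i j r th gam P S'.El ω l - la D n i j r th gam P S.El ω l| ≤
        n * (τ * exp (C * z)) := fun ω hq hω l hl =>
    hs_cg hτ0.le (exp_pos _).le (hdE ω hω l hl) fun k hk => h.bz ω hq hω k hk.1.1 hk.1.2.1.le
  have tri3 : ∀ {x x' y' y'' s t : ℝ}, |x' - x| ≤ s → |y'' - y'| ≤ s → |x - y'| ≤ t →
      |x' - y''| ≤ t + 2 * s := by
    intro x x' y' y'' s t h1 h2 h3
    rw [abs_le] at h1 h2 h3 ⊢
    constructor <;> linarith
  exact
    { tri := h.tri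
      deg := h.deg
      near := fun ω hq hω i₁ hi₁ l hl => by
        have := h.near ω hq hω i₁ hi₁ l hl
        exact ⟨this.1.trans (div_le_div_of_nonneg_right x0 (by positivity)),
          this.2.trans (div_le_div_of_nonneg_right x0 (by positivity))⟩
      bz := fun ω hq hω l h1 hl => (h.bz ω hq hω l h1 hl).trans x0
      bt := fun ω hq hω l h1 hl w hw1 hw2 => by
        have := h.bt ω hq hω l h1 hl w hw1 hw2
        exact ⟨this.1.trans x0, fun s s1 s2 => (this.2 s s1 s2).trans x0⟩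
      bS := fun ω u k => (hbS ω u k).trans x0
      bEl := fun ω u k => (hbE ω u k).trans x0
      tS := htS
      tE := htE
      slow0 := fun ω hq hω l hl w hw1 hw2 => by
        have := h.slow0 ω hq hω l hl w hw1 hw2
        exact ⟨this.1.trans y0, fun s s1 s2 => (this.2 s s1 s2).trans y0⟩
      path := fun ω hq hω l h1 hl w hw1 hw2 => (h.path ω hq hω l h1 hl w hw1 hw2).trans y0
      pathx := fun ω hq hω l h1 hl w hw1 hw2 x x0 x1 =>
        (h.pathx ω hq hω l h1 hl w hw1 hw2 x x0 x1).trans y0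
      left2 := fun ω ω' hq hq' hω hω' hbb hc w hw1 hw2 hT => by
        have h5 := h.left2 ω ω' hq hq' hω hω' hbb hc w hw1 hw2 hT
        exact ⟨fun l hl => (h5.1 l hl).trans y0, fun l hl s s1 s2 => (h5.2 l hl s s1 s2).trans y0⟩
      left := fun ω ω' hq hq' hω hω' hbb hc w hw1 hw2 hT => by
        have h5 := h.left ω ω' hq hq' hω hω' hbb hc w hw1 hw2 hT
        exact ⟨fun l hl => ⟨(h5.1 l hl).1.trans y0, fun s s1 s2 =>
          ((h5.1 l hl).2 s s1 s2).trans y0⟩, fun l hl s s1 s2 => (h5.2 l hl s s1 s2).trans y0⟩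
      left3 := fun ω ω' hq hq' hω hω' hbb hc w hw1 hw2 hT l hl1 hl => by
        have h5 := h.left3 ω ω' hq hq' hω hω' hbb hc w hw1 hw2 hT l hl1 hl
        exact ⟨h5.1.trans y0, fun s s1 s2 => (h5.2 s s1 s2).trans y0⟩
      right := fun ω ω' hq hq' hω hω' hbb hT hs u hu => by
        have h5 := h.right ω ω' hq hq' hω hω' hbb hT hs u hu
        refine ⟨(tri3 (hnn ω hq hω u hu) (hnn ω' hq' hω' u hu) h5.1).trans y2, fun k hk => ?_⟩
        exact (tri3 (hdS ω hω u hu k hk) (hdS ω' hω' u hu k hk) (h5.2 k hk)).trans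
          (by linarith)
      right2 := fun ω ω' hq hq' hω hω' hbb hT hs => by
        have h5 := h.right2 ω ω' hq hq' hω hω' hbb hT hs
        exact ⟨fun u hu k hk => (tri3 (hdS ω hω u hu k hk) (hdS ω' hω' u hu k hk)
          (h5.1 u hu k hk)).trans (by linarith), fun l hl k hk => (tri3 (hdE ω hω l hl k hk)
          (hdE ω' hω' l hl k hk) (h5.2 l hl k hk)).trans (by linarith)⟩
      leaf := fun ω ω' hq hq' hω hω' hbb hT hs l hl => by
        have h5 := h.leaf ω ω' hq hq' hω hω' hbb hT hs l hl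
        refine ⟨(tri3 (hla ω hq hω l hl) (hla ω' hq' hω' l hl) h5.1).trans y2, fun k hk => ?_⟩
        exact (tri3 (hdE ω hω l hl k hk) (hdE ω' hω' l hl k hk) (h5.2 k hk)).trans
          (by linarith)
      sheet := fun ω hq hω Bx hBx b hb0 hb hbu u hu => by
        have e1 := h.sheet ω hq hω Bx hBx b hb0 hb hbu u hu
        have e2 := hnn ω hq hω u hu
        have e3 := sum_bd (n := n) (f := fun k => S'.S ω u k - S.S ω u k)
          (g := fun k => nat (D.g i j) (P (bb D i j r ω)) b k) hτ0.le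
          (exp_pos (Bx * z)).le (hdS ω hω u hu) hb
        have e4 : nat (D.g i j) (P (bb D i j r ω)) b u -
            (nn D n i j r th gam P S'.S ω u + ∑ k ∈ (range n).filter (sl th gam n),
              S'.S ω u k * nat (D.g i j) (P (bb D i j r ω)) b k) =
            (nat (D.g i j) (P (bb D i j r ω)) b u -
            (nn D n i j r th gam P S.S ω u + ∑ k ∈ (range n).filter (sl th gam n),
              S.S ω u k * nat (D.g i j) (P (bb D i j r ω)) b k)) -
            (nn D n i j r th gam P S'.S ω u - nn D n i j r th gam P S.S ω u) -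
            ∑ k ∈ (range n).filter (sl th gam n), (S'.S ω u k - S.S ω u k) *
              nat (D.g i j) (P (bb D i j r ω)) b k := by
          simp_rw [sub_mul]
          rw [Finset.sum_sub_distrib]
          ring
        rw [e4]
        refine ((abs_sub _ _).trans (add_le_add ((abs_sub _ _).trans (add_le_add e1 e2))
          e3)).trans ?_
        have hBz : (z : ℝ) ≤ Bx * z := le_mul_of_one_le_left hz0 hBx
        have f1 : exp (C * z) ≤ exp (C * Bx * z) := Real.exp_le_exp.2 (by nlinarith)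
        have f2 : exp (Bx * z) ≤ exp (C * Bx * z) := Real.exp_le_exp.2 (by nlinarith)
        have f3 : exp (C * Bx * z) ≤ exp ((2 * C + 1) * Bx * z) := Real.exp_le_exp.2 (by nlinarith)
        have f4 : (2 * (n : ℝ) + 1) * τ ≤ exp ((2 * C + 1) * z) / 2 ^ (y * z) := by
          have : τ ≤ τ * exp (C * z) := le_mul_of_one_le_right hτ0.le x1
          nlinarith
        calc exp (C * Bx * z) * τ + n * (τ * exp (C * z)) + n * (τ * exp (Bx * z))
            ≤ exp (C * Bx * z) * τ + n * (τ * exp (C * Bx * z)) +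
              n * (τ * exp (C * Bx * z)) := by gcongr
          _ = exp (C * Bx * z) * ((2 * (n : ℝ) + 1) * τ) := by ring
          _ ≤ _ := mul_le_mul f3 f4 (by positivity) (exp_pos _).le
      toV := fun ω ω' q1 q2 hω hω' hbb hT l hl1 hl δ hδ h' =>
        (h.toV ω ω' q1 q2 hω hω' hbb hT l hl1 hl δ hδ h').trans (mul_le_mul_of_nonneg_right x0 hδ)
      ofV := fun ω ω' q1 q2 hω hω' hbb hT l hl1 hl δ hδ h' =>
        (h.ofV ω ω' q1 q2 hω hω' hbb hT l hl1 hl δ hδ h').trans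
          (mul_le_mul_of_nonneg_right x0 hδ) }

end

/-- The slopes at `(i', j)`, as multiples of the own slopes at `(i, j)`. -/
noncomputable def Sm (D : NDat2) (n i i' j r : ℕ) (Sl : ℕ → Prop) (E : D.Ω → Prop)
    (P : D.Γ × D.Γ → ℕ → PN) (V : D.Ω → ℕ → PN) (ω : D.Ω) (u k : ℕ) : ℝ :=
  rho (D.g i j) (D.g i' j) u / rho (D.g i j) (D.g i' j) k * SV D n i j r Sl E P V ω u k

/-- At the first place the slopes are the own slopes. -/
theorem Sm_self (D : NDat2) (n i j r : ℕ) (Sl : ℕ → Prop) (E : D.Ω → Prop)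
    (P : D.Γ × D.Γ → ℕ → PN) (V : D.Ω → ℕ → PN) :
    Sm D n i i j r Sl E P V = SV D n i j r Sl E P V := by
  funext ω u k
  unfold Sm rho
  rw [div_self (by positivity), div_self (by positivity), div_one, one_mul]

/-- The slopes of one place, from those of another. -/
theorem Sm_chg (D : NDat2) (n i i' i'' j r : ℕ) (Sl : ℕ → Prop) (E : D.Ω → Prop)
    (P : D.Γ × D.Γ → ℕ → PN) (V : D.Ω → ℕ → PN) (ω : D.Ω) (u k : ℕ) :
    Sm D n i i'' j r Sl E P V ω u k =
      rho (D.g i' j) (D.g i'' j) u / rho (D.g i' j) (D.g i'' j) k *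
        Sm D n i i' j r Sl E P V ω u k := by
  unfold Sm rho
  field_simp

open Classical in
/-- **The geometry at `(i', j)`, with the multiples of the own slopes at `(i, j)`.** -/
theorem geo_scl (h3 : LinStmt) (h5 : DepStmt) (n d K K' : ℕ) (th : ℝ) (lam gam : ℕ → ℝ)
    (C₁ C : ℝ) (hn : 1 ≤ n) (hC₁ : 1 ≤ C₁) (hC : 0 ≤ C)
    (hlam : ∀ l, 1 ≤ l → l ≤ n → lam l = 1) (hgam : ∀ l, 0 ≤ gam l) : ∃ Cg : ℝ, 1 ≤ Cg ∧ C ≤ Cg ∧
    ∀ (y r r2 r' r'' a M : ℕ), ∃ z₀ : ℕ, ∀ (J a₀ w₀ z i i' j : ℕ) (D : NDat2) (q : D.Ω → ℝ)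
      (κ : ℝ), z₀ ≤ z → Plc n d th gam y r r2 r' r'' a M i j →
      Plc n d th gam y r r2 r' r'' a M i' j → i ≤ i' →
      D.Ok2 n K J a₀ w₀ z M lam gam κ C₁ q →
      ∀ (P P' : D.Γ × D.Γ → ℕ → PN) (E : D.Ω → Prop), (∀ v, TriN (P' v)) →
      (∀ v l, (P' v l).totalDegree ≤ K') →
      (∀ ω, E ω → FrP D n K' z i j r C (P (bb D i j r ω)) ω) →
      (∀ ω, E ω → 0 < q ω ∧ GoodS D n K' w₀ z M C ω ∧
        FrP D n K' z i' j r C (P' (bb D i' j r ω)) ω) →
      (∀ ω, E ω → ∀ l, 1 ≤ l → ∃ α : ℝ,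
        fz (D.X ω 0) (P' (bb D i' j r ω)) l = fz (D.X ω 0) (P (bb D i j r ω)) l +
          MvPolynomial.C α) →
      ∀ V : D.Ω → ℕ → PN, OwnFr D n K' z M C E V →
      Geo D n d K' J w₀ z i' j r r2 r' r'' th gam Cg (exp (Cg * z) / 2 ^ (y * z)) q E P'
        ⟨Sm D n i i' j r (sl th gam n) E P V, Sm D n i i' j r (sl0 th gam n) E P V⟩ ∧
      Dep D n d J w₀ z M i' j r Cg q E P' := by
  obtain ⟨Cm, hCm1, hCm, hmk⟩ := geo_mk h3 h5 n d K K' th lam gam C₁ C hn hC₁ hC hlam hgam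
  obtain ⟨Cs, hCs1, hscl⟩ := SV_scl n K K' lam C₁ C hC₁ hC hlam
  obtain ⟨Co, hCo1, hown⟩ := own_V n K K' lam C₁ C hC₁ hC hlam
  obtain ⟨Cb, hCb⟩ : ∃ Cb : ℝ, Cb = Cm + Cs + (Co + 4 * C₁) := ⟨_, rfl⟩
  have b1 : 1 ≤ Cb := by rw [hCb]; linarith
  have bm : Cm ≤ Cb := by rw [hCb]; linarith
  have bs' : Cs ≤ Cb := by rw [hCb]; linarith
  have bo : Co + 4 * C₁ ≤ Cb := by rw [hCb]; linarith
  refine ⟨2 * Cb + 1, by linarith, by linarith, ?_⟩
  intro y r r2 r' r'' a M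
  obtain ⟨z₁, hmk⟩ := hmk y r r2 r' r'' a M
  obtain ⟨z₂, hscl1⟩ := hscl y r r' r'' a M
  obtain ⟨z₃, hscl2⟩ := hscl y r r2 r'' a M
  obtain ⟨z₄, hown1⟩ := hown y r r' r'' a M
  obtain ⟨z₅, hown2⟩ := hown y r r2 r'' a M
  refine ⟨max (max z₁ (2 * n + 3)) (max (max z₂ z₃) (max z₄ z₅)), ?_⟩
  intro J a₀ w₀ z i i' j D q κ hz hP hP' hii hO P P' E hPt hPd hG0 hG hα V hV
  have hi'M : i' ≤ M := by have := hP'.i2; omega
  obtain ⟨g1, g2⟩ := hmk J a₀ w₀ z i' j D q κ (by omega) hP' hO P' E hPt hPd hG V hV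
  have hO1 := hown1 gam J a₀ w₀ z i j D q κ (sl th gam n) (by omega) (ownP_sl hP) hO P E
    (fun ω hω => ⟨(hG ω hω).1, hG0 ω hω⟩) V hV
  have hO2 := hown2 gam J a₀ w₀ z i j D q κ (sl0 th gam n) (by omega) (ownP_sl0 hP) hO P E
    (fun ω hω => ⟨(hG ω hω).1, hG0 ω hω⟩) V hV
  have hs1 := hscl1 gam J a₀ w₀ z i i' j D q κ (sl th gam n) (by omega) (ownP_sl hP) hii hi'M hO
    P P' E (fun ω hω => ⟨(hG ω hω).1, hG0 ω hω, (hG ω hω).2.2⟩) hα V hV
  have hs2 := hscl2 gam J a₀ w₀ z i i' j D q κ (sl0 th gam n) (by omega) (ownP_sl0 hP) hii hi'M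
    hO P P' E (fun ω hω => ⟨(hG ω hω).1, hG0 ω hω, (hG ω hω).2.2⟩) hα V hV
  have hp0 : (0 : ℝ) ≤ 2 ^ (y * z) := by positivity
  have hzE : 2 * (n : ℝ) + 3 ≤ exp z := by
    have e1 : (z : ℝ) + 1 ≤ exp z := Real.add_one_le_exp _
    have e2 : (2 * n + 3 : ℕ) ≤ z := by omega
    have e3 : ((2 * n + 3 : ℕ) : ℝ) ≤ z := by exact_mod_cast e2
    push_cast at e3
    linarith
  -- the bound of the multiples
  have bd : ∀ (Sl : ℕ → Prop), (∀ l, Sl l → 1 ≤ l ∧ l < n) →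
      (∀ ω u k, |SV D n i j r Sl E P V ω u k| ≤ exp (Co * z)) →
      ∀ ω u k, |Sm D n i i' j r Sl E P V ω u k| ≤ exp (Cb * z) := by
    intro Sl hSl hb ω u k
    unfold Sm
    by_cases h : 1 ≤ u ∧ u ≤ n ∧ Sl k
    · have e1 := rho_le hO hlam (i := i) (i' := i') (j := j) (by omega) hi'M
        (by have := hP.j2; omega) (by linarith) h.1 h.2.1 (hSl k h.2.2).1 (hSl k h.2.2).2.le
      have e3 : (0 : ℝ) < rho (D.g i j) (D.g i' j) u / rho (D.g i j) (D.g i' j) k :=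
        div_pos (rho_pos _ _ _) (rho_pos _ _ _)
      rw [abs_mul, abs_of_pos e3]
      refine (mul_le_mul e1 (hb ω u k) (abs_nonneg _) (exp_pos _).le).trans ?_
      rw [← Real.exp_add, ← add_mul]
      exact exp_mz (by linarith) z
    · rw [SV_off h, mul_zero, abs_zero]
      exact (exp_pos _).le
  have g1' : Geo D n d K' J w₀ z i' j r r2 r' r'' th gam Cb (exp (Cb * z) / 2 ^ (y * z)) q E P'
      ⟨SV D n i' j r (sl th gam n) E P' V, SV D n i' j r (sl0 th gam n) E P' V⟩ := by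
    have x0 : exp (Cm * z) ≤ exp (Cb * z) := exp_mz bm z
    have y0 : exp (Cm * z) / 2 ^ (y * z) ≤ exp (Cb * z) / 2 ^ (y * z) :=
      div_le_div_of_nonneg_right x0 hp0
    exact
    { tri := g1.tri
      deg := g1.deg
      near := fun ω hq hω i₁ hi₁ l hl => by
        have := g1.near ω hq hω i₁ hi₁ l hl
        exact ⟨this.1.trans (div_le_div_of_nonneg_right x0 (by positivity)),
          this.2.trans (div_le_div_of_nonneg_right x0 (by positivity))⟩
      bz := fun ω hq hω l h1 hl => (g1.bz ω hq hω l h1 hl).trans x0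
      bt := fun ω hq hω l h1 hl w hw1 hw2 => by
        have := g1.bt ω hq hω l h1 hl w hw1 hw2
        exact ⟨this.1.trans x0, fun s s1 s2 => (this.2 s s1 s2).trans x0⟩
      bS := fun ω u k => (g1.bS ω u k).trans x0
      bEl := fun ω u k => (g1.bEl ω u k).trans x0
      tS := g1.tS
      tE := g1.tE
      slow0 := fun ω hq hω l hl w hw1 hw2 => by
        have := g1.slow0 ω hq hω l hl w hw1 hw2
        exact ⟨this.1.trans y0, fun s s1 s2 => (this.2 s s1 s2).trans y0⟩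
      path := fun ω hq hω l h1 hl w hw1 hw2 => (g1.path ω hq hω l h1 hl w hw1 hw2).trans y0
      pathx := fun ω hq hω l h1 hl w hw1 hw2 x x0 x1 =>
        (g1.pathx ω hq hω l h1 hl w hw1 hw2 x x0 x1).trans y0
      left2 := fun ω ω' hq hq' hω hω' hbb hc w hw1 hw2 hT => by
        have h5 := g1.left2 ω ω' hq hq' hω hω' hbb hc w hw1 hw2 hT
        exact ⟨fun l hl => (h5.1 l hl).trans y0, fun l hl s s1 s2 => (h5.2 l hl s s1 s2).trans y0⟩
      left := fun ω ω' hq hq' hω hω' hbb hc w hw1 hw2 hT => by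
        have h5 := g1.left ω ω' hq hq' hω hω' hbb hc w hw1 hw2 hT
        exact ⟨fun l hl => ⟨(h5.1 l hl).1.trans y0, fun s s1 s2 =>
          ((h5.1 l hl).2 s s1 s2).trans y0⟩, fun l hl s s1 s2 => (h5.2 l hl s s1 s2).trans y0⟩
      left3 := fun ω ω' hq hq' hω hω' hbb hc w hw1 hw2 hT l hl1 hl => by
        have h5 := g1.left3 ω ω' hq hq' hω hω' hbb hc w hw1 hw2 hT l hl1 hl
        exact ⟨h5.1.trans y0, fun s s1 s2 => (h5.2 s s1 s2).trans y0⟩
      right := fun ω ω' hq hq' hω hω' hbb hT hs u hu => by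
        have h5 := g1.right ω ω' hq hq' hω hω' hbb hT hs u hu
        exact ⟨h5.1.trans y0, fun k hk => (h5.2 k hk).trans y0⟩
      right2 := fun ω ω' hq hq' hω hω' hbb hT hs => by
        have h5 := g1.right2 ω ω' hq hq' hω hω' hbb hT hs
        exact ⟨fun u hu k hk => (h5.1 u hu k hk).trans y0, fun l hl k hk =>
          (h5.2 l hl k hk).trans y0⟩
      leaf := fun ω ω' hq hq' hω hω' hbb hT hs l hl => by
        have h5 := g1.leaf ω ω' hq hq' hω hω' hbb hT hs l hl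
        exact ⟨h5.1.trans y0, fun k hk => (h5.2 k hk).trans y0⟩
      sheet := fun ω hq hω Bx hBx b hb0 hb hbu u hu => by
        refine (g1.sheet ω hq hω Bx hBx b hb0 hb hbu u hu).trans ?_
        refine mul_le_mul (Real.exp_le_exp.2 ?_) y0 (by positivity) (exp_pos _).le
        have : (0 : ℝ) ≤ Bx * z := by positivity
        nlinarith
      toV := fun ω ω' q1 q2 hω hω' hbb hT l hl1 hl δ hδ h' =>
        (g1.toV ω ω' q1 q2 hω hω' hbb hT l hl1 hl δ hδ h').trans (mul_le_mul_of_nonneg_right x0 hδ)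
      ofV := fun ω ω' q1 q2 hω hω' hbb hT l hl1 hl δ hδ h' =>
        (g1.ofV ω ω' q1 q2 hω hω' hbb hT l hl1 hl δ hδ h').trans
          (mul_le_mul_of_nonneg_right x0 hδ) }
  refine ⟨geo_cg b1 hzE g1' ?_ ?_ ?_ ?_ ?_ ?_, dep_mono g2 (by linarith)⟩
  · exact bd _ (fun l hl => ⟨hl.1, hl.2.1⟩) hO1.1
  · exact bd _ (fun l hl => ⟨hl.1.1, hl.1.2.1⟩) hO2.1
  · intro ω u k huk
    change Sm D n i i' j r (sl th gam n) E P V ω u k = 0
    unfold Sm
    rw [hO1.2.1 ω u k huk, mul_zero]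
  · intro ω u k huk
    change Sm D n i i' j r (sl0 th gam n) E P V ω u k = 0
    unfold Sm
    rw [hO2.2.1 ω u k huk, mul_zero]
  · intro ω hω u hu k hk
    obtain ⟨u1, u2, u3⟩ := (gr_not hP.stp).1 hu
    rw [abs_sub_comm]
    exact (hs1 ω hω u u1 u2 u3 k hk).trans (div_le_div_of_nonneg_right (exp_mz bs' z) hp0)
  · intro ω hω l hl k hk
    rw [abs_sub_comm]
    exact (hs2 ω hω l hl.1.1 hl.1.2.1.le (fun h => sl0_sl1 h hl) k hk).trans
      (div_le_div_of_nonneg_right (exp_mz bs' z) hp0)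

end Pool.TCO
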