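import Pool.Agent.H38.TC.Own
import Pool.Agent.H69.P4.Geo

/-!
# TC: the geometry of a cell, from the pieces

`geo_mk`: for a given event, given closed frames and given own frames, lines (`LinStmt`), own sheets
(`own_V`, twice) and deeper contexts (`DepStmt`) give `Geo` and `Dep` with the explicit slopes `SV`.
`geo_of`: with paths and closed frames, the geometry (`GeoStmt`).
-/

set_option autoImplicit false

namespace Pool.TCO

open Finset Real MvPolynomial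
open Pool.Agent.H49.Ent Pool.Agent.H32.Dense Pool.STK Pool.STAT Pool.MIC.Frm Pool.MIC7 Pool.FRM
open Pool.GSD Pool.TC Pool.P4O
open Pool.BFL (Pb)
open Pool.P4 (t0 rt pp PthC FraC bb ze zt z0 GoodS FrP exp_mz)

/-- A place needs at least two places. -/
theorem plc_two {n d : ℕ} {th : ℝ} {gam : ℕ → ℝ} {y r r2 r' r'' a M i j : ℕ} (hn : 1 ≤ n)
    (hg : ∀ l, 0 ≤ gam l) (h : Plc n d th gam y r r2 r' r'' a M i j) : 2 ≤ M := by
  have h1 := h.stp.s4 1 le_rfl hn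
  have h2 : (0 : ℝ) ≤ 2 * gam 1 * r := by
    have := hg 1
    positivity
  have h3 : (1 : ℝ) ≤ y := by exact_mod_cast h.y1
  have h4 : (1 : ℝ) ≤ r'' := by linarith
  have h5 : 1 ≤ r'' := by exact_mod_cast h4
  have := h.i1
  have := h.i2
  omega

section

variable {D : NDat2} {J w i j r d : ℕ} {P : D.Γ × D.Γ → ℕ → PN} {ω ω' : D.Ω}

/-- The coordinates of a sample with the context of `ω`, over the frame of `ω`. -/
theorem zt_cst (h : bb D i j r ω = bb D i j r ω') (t : ℝ) (l : ℕ) :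
    zt D i j r P t ω' l = zt D i j r (fun _ => P (bb D i j r ω)) t ω' l := by
  unfold zt
  rw [h]

theorem z0_cst (h : bb D i j r ω = bb D i j r ω') (l : ℕ) :
    z0 D J w i j r P ω' l = z0 D J w i j r (fun _ => P (bb D i j r ω)) ω' l := by
  unfold z0
  exact zt_cst h _ l

theorem bs_cst (h : bb D i j r ω = bb D i j r ω') (s l : ℕ) :
    bs D J w i j r d P s ω' l = bs D J w i j r d (fun _ => P (bb D i j r ω)) s ω' l := by
  unfold bs Pool.TC.pth zx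
  congr 2
  funext m
  exact zt_cst h _ l

end

/-- The own sheets of the group. -/
theorem ownP_sl {n d : ℕ} {th : ℝ} {gam : ℕ → ℝ} {y r r2 r' r'' a M i j : ℕ}
    (h : Plc n d th gam y r r2 r' r'' a M i j) :
    OwnP n gam (sl th gam n) y r r' r'' a M i j where
  in1 := fun l hl => ⟨hl.1, hl.2.1⟩
  s1 := fun l hl => h.stp.s1 l hl
  s2 := fun l h1 h2 h3 => h.stp.s2 l ⟨h1, h2, by
    by_contra h4
    push Not at h4
    rcases Nat.lt_or_ge l n with h5 | h5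
    · exact h3 ⟨h1, h5, h4⟩
    · have h6 : l = n := by omega
      subst h6
      exact absurd h4 (not_lt.2 h.stp.gn)⟩
  s4 := h.stp.s4
  s6 := h.stp.s6
  s7 := h.stp.s7
  y1 := h.y1
  a1 := h.a1
  i1 := h.i1
  i2 := h.i2
  j1 := h.j1
  j2 := h.j2

/-- The own sheets of the moving slow coordinates. -/
theorem ownP_sl0 {n d : ℕ} {th : ℝ} {gam : ℕ → ℝ} {y r r2 r' r'' a M i j : ℕ}
    (h : Plc n d th gam y r r2 r' r'' a M i j) :
    OwnP n gam (sl0 th gam n) y r r2 r'' a M i j where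
  in1 := fun l hl => ⟨hl.1.1, hl.1.2.1⟩
  s1 := fun l hl => h.stp.t0 l hl
  s2 := fun l h1 h2 h3 => by
    by_cases h4 : sl th gam n l
    · refine h.stp.t1 l ⟨h4, ?_⟩
      by_contra h5
      exact h3 ⟨h4, not_le.1 h5⟩
    · have h5 := (ownP_sl h).s2 l h1 h2 h4
      have h6 : (r2 : ℝ) ≤ r' := by exact_mod_cast h.stp.s5
      linarith
  s4 := h.stp.s4
  s6 := h.stp.s5.trans h.stp.s6
  s7 := h.stp.s7
  y1 := h.y1
  a1 := h.a1
  i1 := h.i1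
  i2 := h.i2
  j1 := h.j1
  j2 := h.j2

theorem gr_not {n d : ℕ} {th : ℝ} {gam : ℕ → ℝ} {y r r2 r' r'' a : ℕ}
    (h : Stp n d th gam y r r2 r' r'' a) {l : ℕ} :
    gr th gam n l ↔ 1 ≤ l ∧ l ≤ n ∧ ¬ sl th gam n l := by
  constructor
  · rintro ⟨h1, h2, h3⟩
    exact ⟨h1, h2, fun h4 => absurd h4.2.2 (not_lt.2 h3)⟩
  · rintro ⟨h1, h2, h3⟩
    refine ⟨h1, h2, ?_⟩
    by_contra h4
    push Not at h4
    rcases Nat.lt_or_ge l n with h5 | h5
    · exact h3 ⟨h1, h5, h4⟩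
    · have h6 : l = n := by omega
      subst h6
      exact absurd h4 (not_lt.2 h.gn)

/-- A larger constant. -/
theorem dep_mono {D : NDat2} {n d J w₀ z M i j r : ℕ} {C C' : ℝ} {q : D.Ω → ℝ} {E : D.Ω → Prop}
    {P : D.Γ × D.Γ → ℕ → PN} (h : Dep D n d J w₀ z M i j r C q E P) (hC : C ≤ C') :
    Dep D n d J w₀ z M i j r C' q E P where
  ctx := fun i' h1 h2 ω ω' a b c d e f w w1 w2 g l l1 l2 =>
    ⟨(h.ctx i' h1 h2 ω ω' a b c d e f w w1 w2 g l l1 l2).1.trans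
      (div_le_div_of_nonneg_right (exp_mz hC z) (by positivity)),
      fun s s1 s2 => ((h.ctx i' h1 h2 ω ω' a b c d e f w w1 w2 g l l1 l2).2 s s1 s2).trans
      (div_le_div_of_nonneg_right (exp_mz hC z) (by positivity))⟩
  toV := fun i' h1 h2 ω ω' a b c d e f g l l1 l2 δ hδ h' =>
    (h.toV i' h1 h2 ω ω' a b c d e f g l l1 l2 δ hδ h').trans
      (mul_le_mul_of_nonneg_right (exp_mz hC z) hδ)
  ofV := fun i' h1 h2 ω ω' a b c d e f g l l1 l2 δ hδ h' =>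
    (h.ofV i' h1 h2 ω ω' a b c d e f g l l1 l2 δ hδ h').trans
      (mul_le_mul_of_nonneg_right (exp_mz hC z) hδ)

/-- **The geometry of a cell for given frames.** The slopes are the explicit ones, over the own
frames `V`. -/
theorem geo_mk (h3 : LinStmt) (h5 : DepStmt) (n d K K' : ℕ) (th : ℝ) (lam gam : ℕ → ℝ)
    (C₁ C : ℝ) (hn : 1 ≤ n) (hC₁ : 1 ≤ C₁) (hC : 0 ≤ C)
    (hlam : ∀ l, 1 ≤ l → l ≤ n → lam l = 1) (hgam : ∀ l, 0 ≤ gam l) : ∃ Cg : ℝ, 1 ≤ Cg ∧ C ≤ Cg ∧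
    ∀ (y r r2 r' r'' a M : ℕ), ∃ z₀ : ℕ, ∀ (J a₀ w₀ z i j : ℕ) (D : NDat2) (q : D.Ω → ℝ) (κ : ℝ),
      z₀ ≤ z → Plc n d th gam y r r2 r' r'' a M i j →
      D.Ok2 n K J a₀ w₀ z M lam gam κ C₁ q →
      ∀ (P : D.Γ × D.Γ → ℕ → PN) (E : D.Ω → Prop), (∀ v, TriN (P v)) →
      (∀ v l, (P v l).totalDegree ≤ K') →
      (∀ ω, E ω → 0 < q ω ∧ GoodS D n K' w₀ z M C ω ∧ FrP D n K' z i j r C (P (bb D i j r ω)) ω) →
      ∀ V : D.Ω → ℕ → PN, OwnFr D n K' z M C E V →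
      Geo D n d K' J w₀ z i j r r2 r' r'' th gam Cg (exp (Cg * z) / 2 ^ (y * z)) q E P
        ⟨SV D n i j r (sl th gam n) E P V, SV D n i j r (sl0 th gam n) E P V⟩ ∧
      Dep D n d J w₀ z M i j r Cg q E P := by
  obtain ⟨C', hC', hlin⟩ := h3 n d K K' th lam gam C₁ C hn hC₁ hC hlam hgam
  obtain ⟨C'', hC'', hown⟩ := own_V n K K' lam C₁ C hC₁ hC hlam
  obtain ⟨Cd, hCd, hdep⟩ := h5 n d K K' th lam gam C₁ C hn hC₁ hC hlam hgam
  obtain ⟨Cg, hCg⟩ : ∃ Cg, Cg = max (max C Cd) (max C' C'') := ⟨_, rfl⟩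
  have hg1 : C ≤ Cg := by rw [hCg]; exact (le_max_left _ _).trans (le_max_left _ _)
  have hg4 : Cd ≤ Cg := by rw [hCg]; exact (le_max_right _ _).trans (le_max_left _ _)
  have hg2 : C' ≤ Cg := by rw [hCg]; exact (le_max_left _ _).trans (le_max_right _ _)
  have hg3 : C'' ≤ Cg := by rw [hCg]; exact (le_max_right _ _).trans (le_max_right _ _)
  refine ⟨Cg, hC'.trans hg2, hg1, ?_⟩
  intro y r r2 r' r'' a M
  obtain ⟨z₄, hlin⟩ := hlin y r r2 r' r'' a M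
  obtain ⟨z₅, hown1⟩ := hown y r r' r'' a M
  obtain ⟨z₇, hown2⟩ := hown y r r2 r'' a M
  obtain ⟨z₆, hdep⟩ := hdep y r r2 r' r'' a M
  refine ⟨max z₄ (max z₅ (max z₆ z₇)), ?_⟩
  intro J a₀ w₀ z i j D q κ hz hP hO P E hPt hPd hG V hV
  have hi : i ≤ M := by have := hP.i2; omega
  have hi' : i < M := by have := hP.i2; omega
  have hO1 := hown1 gam J a₀ w₀ z i j D q κ (sl th gam n) (by omega) (ownP_sl hP) hO P E
    (fun ω hω => ⟨(hG ω hω).1, (hG ω hω).2.2⟩) V hV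
  have hO2 := hown2 gam J a₀ w₀ z i j D q κ (sl0 th gam n) (by omega) (ownP_sl0 hP) hO P E
    (fun ω hω => ⟨(hG ω hω).1, (hG ω hω).2.2⟩) V hV
  obtain ⟨hS, hS0, hsh, hpair⟩ := hO1
  obtain ⟨hEl, hE0, _, hlf⟩ := hO2
  have hdep := hdep J a₀ w₀ z i j D q κ (by omega) hP hO P E hG
  have hlin : ∀ ω, E ω → _ := fun ω hω =>
    hlin J a₀ w₀ z i j D q κ (by omega) hP hO (P (bb D i j r ω)) ω (hG ω hω).1 (hG ω hω).2.1
      (hG ω hω).2.2
  have hp0 : (0 : ℝ) ≤ 2 ^ (y * z) := by positivity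
  have hz0 : (0 : ℝ) ≤ z := Nat.cast_nonneg z
  have x0 : exp (C * z) ≤ exp (Cg * z) := exp_mz hg1 z
  have x1 : exp (C' * z) ≤ exp (Cg * z) := exp_mz hg2 z
  have x2 : exp (C'' * z) ≤ exp (Cg * z) := exp_mz hg3 z
  have x4 : exp (Cd * z) ≤ exp (Cg * z) := exp_mz hg4 z
  have y1 : exp (C' * z) / 2 ^ (y * z) ≤ exp (Cg * z) / 2 ^ (y * z) :=
    div_le_div_of_nonneg_right x1 hp0
  have y2 : exp (C'' * z) / 2 ^ (y * z) ≤ exp (Cg * z) / 2 ^ (y * z) :=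
    div_le_div_of_nonneg_right x2 hp0
  have hCg0 : 0 ≤ Cg := hC.trans hg1
  refine ⟨?_, dep_mono hdep hg4⟩
  exact
    { tri := hPt
      deg := hPd
      near := fun ω _ hω i₁ hi₁ l hl => by
        have := (hG ω hω).2.2.near i₁ hi₁ l hl
        exact ⟨this.1.trans (div_le_div_of_nonneg_right x0 (by positivity)),
          this.2.trans (div_le_div_of_nonneg_right x0 (by positivity))⟩
      bz := fun ω _ hω l h1 hl => ((hlin ω hω).1 l h1 hl).trans x1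
      bt := fun ω _ hω l h1 hl w hw1 hw2 => by
        have := ((hlin ω hω).2 w hw1 hw2).1 l h1 hl
        exact ⟨this.1.trans x1, fun s s1 s2 => (this.2 s s1 s2).trans x1⟩
      bS := fun ω u k => (hS ω u k).trans x2
      bEl := fun ω u k => (hEl ω u k).trans x2
      tS := fun ω u k h => hS0 ω u k h
      tE := fun ω u k h => hE0 ω u k h
      slow0 := fun ω _ hω l hl w hw1 hw2 => by
        have := ((hlin ω hω).2 w hw1 hw2).2.1 l hl
        exact ⟨this.1.trans y1, fun s s1 s2 => (this.2 s s1 s2).trans y1⟩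
      path := fun ω _ hω l h1 hl w hw1 hw2 =>
        (((hlin ω hω).2 w hw1 hw2).2.2.1 l h1 hl).1.trans y1
      pathx := fun ω _ hω l h1 hl w hw1 hw2 x x0 x1 =>
        ((((hlin ω hω).2 w hw1 hw2).2.2.1 l h1 hl).2 x x0 x1).trans y1
      left2 := fun ω ω' _ hq' hω hω' hbb hc w hw1 hw2 hT => by
        have h5 := (((hlin ω hω).2 w hw1 hw2).2.2.2 ω' hq' (hG ω' hω').2.1 hbb hT).1 hc
        refine ⟨fun l hl => ?_, fun l hl s s1 s2 => ?_⟩
        · rw [z0_cst hbb]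
          exact (h5.1 l hl).trans y1
        · rw [bs_cst hbb]
          exact (h5.2 l hl s s1 s2).trans y1
      left := fun ω ω' _ hq' hω hω' hbb hc w hw1 hw2 hT => by
        have h5 := (((hlin ω hω).2 w hw1 hw2).2.2.2 ω' hq' (hG ω' hω').2.1 hbb hT).2.1 hc
        refine ⟨fun l hl => ⟨?_, fun s s1 s2 => ?_⟩, fun l hl s s1 s2 => ?_⟩
        · rw [z0_cst hbb]
          exact (h5.1 l hl).1.trans y1
        · rw [bs_cst hbb]
          exact ((h5.1 l hl).2 s s1 s2).trans y1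
        · rw [bs_cst hbb]
          exact (h5.2 l hl s s1 s2).trans y1
      left3 := fun ω ω' _ hq' hω hω' hbb hc w hw1 hw2 hT l hl1 hl => by
        have h5 := (((hlin ω hω).2 w hw1 hw2).2.2.2 ω' hq' (hG ω' hω').2.1 hbb hT).2.2 hc l
          hl1 hl
        refine ⟨?_, fun s s1 s2 => ?_⟩
        · rw [z0_cst hbb]
          exact h5.1.trans y1
        · rw [bs_cst hbb]
          exact (h5.2 s s1 s2).trans y1
      right := fun ω ω' _ _ hω hω' hbb hT hs u hu => by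
        obtain ⟨u1, u2, u3⟩ := (gr_not hP.stp).1 hu
        have h5 := (hpair ω ω' hω hω' hbb hT).1 hs u u1 u2 u3
        exact ⟨h5.1.trans y2, fun k hk => (h5.2 k hk).trans y2⟩
      right2 := fun ω ω' _ _ hω hω' hbb hT hs =>
        ⟨fun u hu k hk => by
          obtain ⟨u1, u2, u3⟩ := (gr_not hP.stp).1 hu
          exact ((hpair ω ω' hω hω' hbb hT).2 hs u u1 u2 u3 k hk).trans y2,
        fun l hl k hk => ((hlf ω ω' hω hω' hbb hT).2 hs l hl.1.1 hl.1.2.1.le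
          (fun h => sl0_sl1 h hl) k hk).trans y2⟩
      leaf := fun ω ω' _ _ hω hω' hbb hT hs l hl => by
        have h5 := (hlf ω ω' hω hω' hbb hT).1 hs l hl.1.1 hl.1.2.1.le
          (fun h => sl0_sl1 h hl)
        exact ⟨h5.1.trans y2, fun k hk => (h5.2 k hk).trans y2⟩
      sheet := fun ω _ hω Bx hBx b hb0 hb hbu u hu => by
        obtain ⟨u1, u2, u3⟩ := (gr_not hP.stp).1 hu
        refine (hsh ω hω Bx hBx b hb0 hb
          (fun u u1 u2 u3 => hbu u ((gr_not hP.stp).2 ⟨u1, u2, u3⟩)) u u1 u2 u3).trans ?_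
        have e1 : exp (C'' * Bx * z) ≤ exp (Cg * Bx * z) := exp_le_exp.2
          (mul_le_mul_of_nonneg_right (mul_le_mul_of_nonneg_right hg3 (by linarith)) hz0)
        have e2 : (1 : ℝ) ≤ exp (Cg * z) := one_le_exp (by positivity)
        rw [← mul_div_assoc]
        refine div_le_div_of_nonneg_right (e1.trans ?_) hp0
        exact le_mul_of_one_le_right (exp_pos _).le e2
      toV := fun ω ω' q1 q2 hω hω' hbb hT l hl1 hl δ hδ h =>
        (hdep.toV i le_rfl hi' ω ω' q1 q2 hω hω' hbb (congrArg Prod.fst hbb) hT l hl1 hl δ hδ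
          h).trans (mul_le_mul_of_nonneg_right x4 hδ)
      ofV := fun ω ω' q1 q2 hω hω' hbb hT l hl1 hl δ hδ h =>
        (hdep.ofV i le_rfl hi' ω ω' q1 q2 hω hω' hbb (congrArg Prod.fst hbb) hT l hl1 hl δ hδ
          h).trans (mul_le_mul_of_nonneg_right x4 hδ) }

/-- **Closed frames of a place.** On the good event there are closed frames as functions of the
context. -/
theorem frames_ex {D : NDat2} {n K K' J a₀ w₀ z M i j r : ℕ} {lam gam : ℕ → ℝ} {κ C₁ C : ℝ}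
    {q : D.Ω → ℝ} (hO : D.Ok2 n K J a₀ w₀ z M lam gam κ C₁ q) (hi' : i < M) (hj : j < M)
    {E : D.Ω → Prop} (hEd : ∀ ω, E ω → 0 < q ω ∧ GoodS D n K' w₀ z M C ω) :
    ∃ P : D.Γ × D.Γ → ℕ → PN, (∀ v, TriN (P v)) ∧ (∀ v l, (P v l).totalDegree ≤ K') ∧
      ∀ ω, E ω → FrP D n K' z i j r C (P (bb D i j r ω)) ω := by
  have hi : i ≤ M := hi'.le
  have hex : ∀ v : D.Γ × D.Γ, ∃ P : ℕ → PN, TriN P ∧ (∀ l, (P l).totalDegree ≤ K') ∧
      ∀ ω, E ω → bb D i j r ω = v → FrP D n K' z i j r C P ω := by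
    intro v
    by_cases hv : ∃ ω, E ω ∧ bb D i j r ω = v
    · obtain ⟨ω₀, hω₀, hb₀⟩ := hv
      obtain ⟨P, p1, p2, _, p4⟩ := (hEd ω₀ hω₀).2.fc
      refine ⟨P, p1, p2, fun ω hω hb => ⟨p1, p2, fun i₁ hi₁ l hl => ?_⟩⟩
      have hbb : bb D i j r ω = bb D i j r ω₀ := hb.trans hb₀.symm
      have e1 : D.c i j ω = D.c i j ω₀ := congrArg Prod.fst hbb
      have e2 : D.c (i - 1) (j - r) ω = D.c (i - 1) (j - r) ω₀ := congrArg Prod.snd hbb
      have e3 := Pool.P4.det_c hO hi hj.le hi₁ ω ω₀ (hEd ω hω).1 (hEd ω₀ hω₀).1 e1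
      have e4 := Pool.P4.det_c hO (by omega : i - 1 ≤ M) (by omega : j - r ≤ M)
        (Nat.sub_le_sub_right hi₁ 1) ω ω₀ (hEd ω hω).1 (hEd ω₀ hω₀).1 e2
      have e5 : D.Φ i₁ j ω = D.Φ i₁ j ω₀ := by
        unfold NDat2.Φ
        rw [e3]
      have e6 : D.Φ (i₁ - 1) (j - r) ω = D.Φ (i₁ - 1) (j - r) ω₀ := by
        unfold NDat2.Φ
        rw [e4]
      rw [e5, e6]
      exact ⟨p4 i₁ (by omega) j hj l hl, p4 (i₁ - 1) (by omega) (j - r) (by omega) l hl⟩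
    · refine ⟨fun _ => 0, fun i => ?_, fun l => ?_, fun ω hω hb => absurd ⟨ω, hω, hb⟩ hv⟩
      · rw [vars_0]
        exact Finset.empty_subset _
      · rw [totalDegree_zero]
        exact Nat.zero_le _
  choose P hPt hPd hPf using hex
  exact ⟨P, hPt, hPd, fun ω hω => hPf _ ω hω rfl⟩

/-- Own frames of the samples. -/
theorem own_ex {D : NDat2} {n K' w₀ z M : ℕ} {C : ℝ} {q : D.Ω → ℝ} {E : D.Ω → Prop}
    (hEd : ∀ ω, E ω → 0 < q ω ∧ GoodS D n K' w₀ z M C ω) :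
    ∃ V : D.Ω → ℕ → PN, OwnFr D n K' z M C E V := by
  have hfv : ∀ ω, E ω → ∃ V : ℕ → PN, TriN V ∧ (∀ l, (V l).totalDegree ≤ K') ∧
      (∀ l ≤ n, eval (D.X ω) (V l) = D.X ω l) ∧ ∀ i < M, ∀ j < M, ∀ l ≤ n,
        nrm (D.g i j) (1 / 2) (chr V (fr D (i, j) ω l - V l)) ≤ exp (C * z) / 2 ^ D.g i j l :=
    fun ω hω => (hEd ω hω).2.fv
  choose! V hV using hfv
  exact ⟨V, hV⟩

/-- **The good event.** -/
theorem good_ev (h1 : Pool.P4.PthStmt) (h2 : Pool.P4.CfrStmt) (n K : ℕ) (lam gam : ℕ → ℝ)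
    (C₁ : ℝ) (hn : 1 ≤ n) (hC₁ : 1 ≤ C₁) : ∃ (K' : ℕ) (C : ℝ), K ≤ K' ∧ 0 ≤ C ∧
    ∀ (M : ℕ) (e : ℝ), 2 ≤ M → 0 < e → ∃ (κ : ℝ) (z₀ : ℕ), 0 < κ ∧
    ∀ (J a₀ w₀ z : ℕ) (D : NDat2) (q : D.Ω → ℝ), z₀ ≤ z →
      D.Ok2 n K J a₀ w₀ z M lam gam κ C₁ q → D.TmU J w₀ z κ q →
      ∃ E : D.Ω → Prop, Pb q (fun ω => ¬ E ω) ≤ e ∧
        ∀ ω, E ω → 0 < q ω ∧ GoodS D n K' w₀ z M C ω := by
  obtain ⟨Kc, Cc, hKc, hCc, hcfr⟩ := h2 n K lam gam C₁ hn hC₁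
  obtain ⟨Kf, Cf, hKf, hCf, hfra⟩ := frm_ev n K lam gam C₁ hC₁
  refine ⟨max Kc Kf, max Cc Cf, hKc.trans (le_max_left _ _), hCc.trans (le_max_left _ _), ?_⟩
  intro M e hM he
  obtain ⟨κ₁, z₁, hκ₁, hpth⟩ := h1 n K M lam gam C₁ (e / 3) hC₁ (by positivity)
  obtain ⟨κ₂, z₂, hκ₂, hcfr⟩ := hcfr M (e / 3) hM (by positivity)
  obtain ⟨κ₃, z₃, hκ₃, hfra⟩ := hfra M (e / 3) hM (by positivity)
  refine ⟨min κ₁ (min κ₂ κ₃), max z₁ (max z₂ z₃), lt_min hκ₁ (lt_min hκ₂ hκ₃), ?_⟩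
  intro J a₀ w₀ z D q hz hO hT
  obtain ⟨κ, hκ⟩ : ∃ κ, κ = min κ₁ (min κ₂ κ₃) := ⟨_, rfl⟩
  rw [← hκ] at hO hT
  have k1 : κ ≤ κ₁ := by rw [hκ]; exact min_le_left _ _
  have k2 : κ ≤ κ₂ := by rw [hκ]; exact (min_le_right _ _).trans (min_le_left _ _)
  have k3 : κ ≤ κ₃ := by rw [hκ]; exact (min_le_right _ _).trans (min_le_right _ _)
  have hq := hO.isLaw
  have hpth := hpth J a₀ w₀ z D q (by omega) (Pool.P4.ok2_mono hO k1) (Pool.P4.tmu_mono hT k1)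
  have hcfr := hcfr J a₀ w₀ z D q (by omega) (Pool.P4.ok2_mono hO k2) (Pool.P4.tmu_mono hT k2)
  have hfra := hfra J a₀ w₀ z κ D q (by omega) k3 hO
  refine ⟨fun ω => 0 < q ω ∧ GoodS D n (max Kc Kf) w₀ z M (max Cc Cf) ω, ?_, fun ω h => h⟩
  have a1 : Pb q (fun ω => ¬ (0 < q ω ∧ GoodS D n (max Kc Kf) w₀ z M (max Cc Cf) ω)) ≤
      Pb q (fun ω => ¬ PthC D n w₀ z M 1 ω) +
      Pb q (fun ω => ¬ FraC D n Kc M z Cc ω) + Pb q (fun ω => ¬ Fra D n Kf M z Cf ω) := by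
    refine Pool.P4.pb_cover hq.nonneg fun ω b4 b5 => ?_
    by_contra hcon
    rw [not_or, not_or, not_not, not_not, not_not] at hcon
    obtain ⟨b1, b2, b3⟩ := hcon
    exact b5 ⟨b4, ⟨Pool.P4.FraC.monoK b2 (le_max_left _ _) (le_max_left _ _),
      b3.mono (le_max_right _ _) (le_max_right _ _), b1⟩⟩
  linarith

/-- **The geometry of a cell.** -/
theorem geo_of (h1 : Pool.P4.PthStmt) (h2 : Pool.P4.CfrStmt) (h3 : LinStmt) (h5 : DepStmt) :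
    GeoStmt := by
  intro n d K th lam gam C₁ hn hC₁ hlam hgam
  obtain ⟨K', C, hK', hC, hev⟩ := good_ev h1 h2 n K lam gam C₁ hn hC₁
  obtain ⟨Cg, hCg1, hCg, hgeo⟩ := geo_mk h3 h5 n d K K' th lam gam C₁ C hn hC₁ hC hlam hgam
  refine ⟨K', Cg, hCg1, ?_⟩
  intro y r r2 r' r'' a M e he
  rcases Nat.lt_or_ge M 2 with hM | hM
  · refine ⟨1, 0, one_pos, ?_⟩
    intro J a₀ w₀ z i j D q _ hP
    have := plc_two hn hgam hP
    omega
  obtain ⟨κ, z₁, hκ, hev⟩ := hev M e hM he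
  obtain ⟨z₂, hgeo⟩ := hgeo y r r2 r' r'' a M
  refine ⟨κ, max z₁ z₂, hκ, ?_⟩
  intro J a₀ w₀ z i j D q hz hP hO hT
  obtain ⟨E, hE, hEd⟩ := hev J a₀ w₀ z D q (by omega) hO hT
  have hi' : i < M := by have := hP.i2; omega
  have hj : j < M := by have := hP.j2; omega
  obtain ⟨P, hPt, hPd, hPf⟩ := frames_ex (r := r) hO hi' hj hEd
  obtain ⟨V, hV⟩ := own_ex hEd
  have hG : ∀ ω, E ω → 0 < q ω ∧ GoodS D n K' w₀ z M C ω ∧
      FrP D n K' z i j r C (P (bb D i j r ω)) ω :=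
    fun ω hω => ⟨(hEd ω hω).1, (hEd ω hω).2, hPf ω hω⟩
  obtain ⟨g1, g2⟩ := hgeo J a₀ w₀ z i j D q κ (by omega) hP hO P E hPt hPd hG V hV
  exact ⟨E, P, _, hE, fun ω hω => ⟨(hG ω hω).1, (hG ω hω).2.1.mono hCg,
    (hG ω hω).2.2.mono hCg⟩, g1, g2⟩

end Pool.TCO
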