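import Pool.Agent.H38.TC.Mk

/-!
# Own sheets over a closed frame, over arbitrary coordinates
-/

set_option autoImplicit false

namespace Pool.TCO

open Finset Real MvPolynomial
open Pool.Agent.H49.Ent Pool.Agent.H32.Dense Pool.STK Pool.STAT Pool.MIC.Frm Pool.MIC7 Pool.FRM
open Pool.GSD Pool.TC Pool.P4O
open Pool.P4 (t0 rt pp PthC FraC bb ze zt z0 GoodS FrP)

/-- Own frames of the samples in `E`. -/
def OwnFr (D : NDat2) (n K' z M : ℕ) (C : ℝ) (E : D.Ω → Prop) (V : D.Ω → ℕ → PN) : Prop :=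
  ∀ ω, E ω → TriN (V ω) ∧ (∀ l, (V ω l).totalDegree ≤ K') ∧
    (∀ l ≤ n, eval (D.X ω) (V ω l) = D.X ω l) ∧ ∀ i < M, ∀ j < M, ∀ l ≤ n,
      nrm (D.g i j) (1 / 2) (chr (V ω) (fr D (i, j) ω l - V ω l)) ≤ exp (C * z) / 2 ^ D.g i j l

open Classical in
/-- The own slopes over the closed frame `P` and the own frames `V`. -/
noncomputable def SV (D : NDat2) (n i j r : ℕ) (Sl : ℕ → Prop) (E : D.Ω → Prop)
    (P : D.Γ × D.Γ → ℕ → PN) (V : D.Ω → ℕ → PN) (ω : D.Ω) (u k : ℕ) : ℝ :=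
  if E ω then
    sS n Sl (D.g i j) (fz (D.X ω 0) (P (bb D i j r ω))) (fz (D.X ω 0) (V ω)) u k
  else 0

open Classical in
/-- The conclusion of `OwnStmt`. -/
def OwnC (D : NDat2) (n z i j y r ρ r'' : ℕ) (Sl : ℕ → Prop) (C' : ℝ) (E : D.Ω → Prop)
    (P : D.Γ × D.Γ → ℕ → PN) (S : D.Ω → ℕ → ℕ → ℝ) : Prop :=
  (∀ ω u k, |S ω u k| ≤ exp (C' * z)) ∧
  (∀ ω u k, u ≤ k → S ω u k = 0) ∧
  (∀ ω, E ω → ∀ Bx : ℝ, 1 ≤ Bx → ∀ b : ℕ → ℝ, b 0 = D.X ω 0 →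
    (∀ k, Sl k → |nat (D.g i j) (P (bb D i j r ω)) b k| ≤ exp (Bx * z)) →
    (∀ u, 1 ≤ u → u ≤ n → ¬ Sl u → b u = eval b (D.Ψ (i - ρ) (j + r) ω u)) →
    ∀ u, 1 ≤ u → u ≤ n → ¬ Sl u →
      |nat (D.g i j) (P (bb D i j r ω)) b u - (hs D n i j r P Sl S ω u +
        ∑ k ∈ (range n).filter Sl,
          S ω u k * nat (D.g i j) (P (bb D i j r ω)) b k)| ≤
            exp (C' * Bx * z) / 2 ^ (y * z)) ∧
  ∀ ω ω', E ω → E ω' → bb D i j r ω = bb D i j r ω' → D.T ω = D.T ω' →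
    (D.s (i - ρ) (j + r) ω = D.s (i - ρ) (j + r) ω' → ∀ u, 1 ≤ u → u ≤ n → ¬ Sl u →
      |hs D n i j r P Sl S ω u - hs D n i j r P Sl S ω' u| ≤ exp (C' * z) / 2 ^ (y * z) ∧
      ∀ k, Sl k → |S ω u k - S ω' u k| ≤ exp (C' * z) / 2 ^ (y * z)) ∧
    (D.s (i - r'') (j + r) ω = D.s (i - r'') (j + r) ω' → ∀ u, 1 ≤ u → u ≤ n → ¬ Sl u →
      ∀ k, Sl k → |S ω u k - S ω' u k| ≤ exp (C' * z) / 2 ^ (y * z))

open Classical in
/-- **(OWN)**, explicit form: the own slopes over given own frames. -/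
theorem own_V (n K K' : ℕ) (lam : ℕ → ℝ) (C₁ C : ℝ) (hC₁ : 1 ≤ C₁) (hC : 0 ≤ C)
    (hlam : ∀ l, 1 ≤ l → l ≤ n → lam l = 1) : ∃ C' : ℝ, 1 ≤ C' ∧
    ∀ (y r ρ r'' a M : ℕ), ∃ z₀ : ℕ, ∀ (gam : ℕ → ℝ) (J a₀ w₀ z i j : ℕ) (D : NDat2)
      (q : D.Ω → ℝ) (κ : ℝ) (Sl : ℕ → Prop),
      z₀ ≤ z → OwnP n gam Sl y r ρ r'' a M i j → D.Ok2 n K J a₀ w₀ z M lam gam κ C₁ q →
      ∀ (P : D.Γ × D.Γ → ℕ → PN) (E : D.Ω → Prop),
      (∀ ω, E ω → 0 < q ω ∧ FrP D n K' z i j r C (P (bb D i j r ω)) ω) →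
      ∀ V : D.Ω → ℕ → PN, OwnFr D n K' z M C E V →
      OwnC D n z i j y r ρ r'' Sl C' E P (SV D n i j r Sl E P V) := by
  obtain ⟨a, c₀, ha, h0⟩ := mk_cel n K K' C₁ C hC₁ hC
  obtain ⟨aS, cS, hS⟩ := sS_le n (max K K') a
  obtain ⟨aB, cB, hB⟩ := cel_b n (max K K') a
  obtain ⟨aC, cC, hCC⟩ := cel_c n (max K K') a
  obtain ⟨aD, cD, hD⟩ := cel_d n (max K K') a
  obtain ⟨N, hN⟩ : ∃ N : ℕ, N = aS + aB + aC + aD + 1 := ⟨_, rfl⟩
  refine ⟨N, by rw [hN]; push_cast; have : (0 : ℝ) ≤ aS + aB + aC + aD := by positivity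
                linarith, ?_⟩
  intro y r ρ r'' aa M
  obtain ⟨z₀, hz₀⟩ := exists_nat_ge (max (max c₀ cS) (max cB (max cC cD)))
  refine ⟨z₀, ?_⟩
  intro gam J a₀ w₀ z i j D q κ Sl hz hpl hO P E hE V hV
  have hzE : (z : ℝ) + 1 ≤ exp z := Real.add_one_le_exp _
  have hzz : (z₀ : ℝ) ≤ z := by exact_mod_cast hz
  have hcE : max (max c₀ cS) (max cB (max cC cD)) ≤ exp (z : ℝ) := by linarith
  obtain ⟨hA1, hA2⟩ := max_le_iff.1 hcE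
  obtain ⟨hc0, hcS⟩ := max_le_iff.1 hA1
  obtain ⟨hcB, hA3⟩ := max_le_iff.1 hA2
  obtain ⟨hcC, hcD⟩ := max_le_iff.1 hA3
  have hE1 : 1 ≤ exp (z : ℝ) := Real.one_le_exp (Nat.cast_nonneg z)
  have cel : ∀ ω, E ω → Cel n (max K K') a (exp z) (D.X ω 0) (2 ^ (i * z)) (2 ^ (y * z))
      (D.g i j) (D.g 0 j) (D.g (i - ρ) (j + r)) (D.g (i - r'') (j + r)) (Sl)
      (fz (D.X ω 0) (P (bb D i j r ω))) (fz (D.X ω 0) (V ω)) (fr D (i - ρ, j + r) ω)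
      (fr D (i - r'', j + r) ω) (D.X ω) := fun ω hω =>
    h0 lam gam Sl y r ρ r'' aa M J a₀ w₀ z i j D q κ (P (bb D i j r ω)) (V ω) ω hlam hc0 hpl hO
      (hE ω hω).1 (hV ω hω) (hE ω hω).2
  have mN : ∀ {b : ℕ} {x : ℝ}, 0 ≤ x → b ≤ N → exp x ^ b ≤ exp (N * x) := by
    intro b x hx hb
    rw [← Real.exp_nat_mul]
    refine Real.exp_le_exp.2 (mul_le_mul_of_nonneg_right ?_ hx)
    exact_mod_cast hb
  have z0 : (0 : ℝ) ≤ z := Nat.cast_nonneg z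
  obtain ⟨S, hSdef⟩ : ∃ S : D.Ω → ℕ → ℕ → ℝ, S = SV D n i j r Sl E P V := ⟨_, rfl⟩
  have hSE : ∀ ω, E ω → ∀ u k, S ω u k =
      sS n (Sl) (D.g i j) (fz (D.X ω 0) (P (bb D i j r ω))) (fz (D.X ω 0) (V ω)) u k := by
    intro ω hω u k
    rw [hSdef]
    unfold SV
    rw [if_pos hω]
  have hnn : ∀ ω, E ω → ∀ u, 1 ≤ u → hs D n i j r P Sl S ω u =
      sN n (Sl) (D.g i j) (fz (D.X ω 0) (P (bb D i j r ω))) (fz (D.X ω 0) (V ω))
        (D.X ω) u := by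
    intro ω hω u hu
    unfold hs sN ze
    rw [nat_fz' _ _ rfl hu]
    congr 1
    refine Finset.sum_congr rfl fun k hk => ?_
    rw [hSE ω hω, nat_fz' _ _ rfl (hpl.in1 k (Finset.mem_filter.1 hk).2).1]
  rw [← hSdef]
  refine ⟨fun ω u k => ?_, fun ω u k huk => ?_, fun ω hω Bx hBx b hb0 hbs hbg u hu1 hun hSu => ?_,
    fun ω ω' hω hω' hbb hT => ⟨fun hs u hu1 hun hSu => ?_, fun hs u hu1 hun hSu k hk => ?_⟩⟩
  · by_cases hω : E ω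
    · rw [hSE ω hω]
      exact (hS _ _ _ _ _ _ _ _ _ _ _ _ _ _ hE1 hcS (cel ω hω) u k).trans
        (mN z0 (by omega))
    · rw [hSdef]
      unfold SV
      rw [if_neg hω, abs_zero]
      positivity
  · by_cases hω : E ω
    · rw [hSE ω hω]
      exact SS_zero _ _ _ _ _ huk
    · rw [hSdef]
      unfold SV
      rw [if_neg hω]
  · have hBz : (z : ℝ) ≤ Bx * z := le_mul_of_one_le_left z0 hBx
    have e1 := hB (exp z) (exp (Bx * z)) (D.X ω 0) _ _ _ _ _ _ _ _ _ _ _ (D.X ω) hE1 hcB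
      (Real.exp_le_exp.2 hBz) (cel ω hω) b hb0 (fun l hl1 hln hl => by
        rw [nat_fz' _ _ hb0 hl1]
        refine (hbs l hl).trans ?_
        exact le_self_pow₀ (Real.one_le_exp (by positivity)) (by omega))
      (fun l hl1 hln hl => by
        have := hbg l hl1 hln hl
        unfold fr
        rw [eval_fz' _ hb0 hl1]
        exact this) u hu1 hun hSu
    rw [nat_fz' _ _ hb0 hu1] at e1
    rw [hnn ω hω u hu1]
    have e2 : ∑ k ∈ (range n).filter (Sl),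
        S ω u k * nat (D.g i j) (P (bb D i j r ω)) b k =
        ∑ k ∈ (range n).filter (Sl), sS n (Sl) (D.g i j)
          (fz (D.X ω 0) (P (bb D i j r ω))) (fz (D.X ω 0) (V ω)) u k *
          nat (D.g i j) (fz (D.X ω 0) (P (bb D i j r ω))) b k := by
      refine Finset.sum_congr rfl fun k hk => ?_
      rw [hSE ω hω, nat_fz' _ _ hb0 (hpl.in1 k (Finset.mem_filter.1 hk).2).1]
    rw [e2]
    refine e1.trans (div_le_div_of_nonneg_right ?_ (by positivity))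
    rw [mul_assoc]
    exact mN (by positivity) (by omega)
  · have ht : D.X ω' 0 = D.X ω 0 := by rw [hO.X_zero, hO.X_zero, hT]
    have hA : fr D (i - ρ, j + r) ω' = fr D (i - ρ, j + r) ω := by
      unfold fr NDat2.Ψ
      rw [ht, hs]
    have c1 := cel ω hω
    have c2 := cel ω' hω'
    rw [hA, ← hbb, ht] at c2
    have e1 := hCC _ _ _ _ _ _ _ _ _ _ _ _ _ _ _ _ _ hE1 hcC c1 c2 u hu1 hun hSu
    rw [hnn ω hω u hu1, hnn ω' hω' u hu1, ← hbb, ht]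
    refine ⟨e1.1.trans (div_le_div_of_nonneg_right (mN z0 (by omega)) (by positivity)),
      fun k hk => ?_⟩
    rw [hSE ω hω, hSE ω' hω', ← hbb, ht]
    exact (e1.2 k hk).trans (div_le_div_of_nonneg_right (mN z0 (by omega)) (by positivity))
  · have ht : D.X ω' 0 = D.X ω 0 := by rw [hO.X_zero, hO.X_zero, hT]
    have hA : fr D (i - r'', j + r) ω' = fr D (i - r'', j + r) ω := by
      unfold fr NDat2.Ψ
      rw [ht, hs]
    have c1 := cel ω hω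
    have c2 := cel ω' hω'
    rw [hA, ← hbb, ht] at c2
    have e1 := hD _ _ _ _ _ _ _ _ _ _ _ _ _ _ _ _ _ hE1 hcD c1 c2 u hu1 hun hSu k hk
    rw [hSE ω hω, hSE ω' hω', ← hbb, ht]
    exact e1.trans (div_le_div_of_nonneg_right (mN z0 (by omega)) (by positivity))

open Classical in
/-- **(OWN)** -/
theorem own_stmt : Pool.TC.OwnStmt := by
  intro n K K' lam gam C₁ C hn hC₁ hC hlam hgam
  obtain ⟨C', hC', h⟩ := own_V n K K' lam C₁ C hC₁ hC hlam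
  refine ⟨C', hC', fun y r ρ r'' a M => ?_⟩
  obtain ⟨z₀, hz₀⟩ := h y r ρ r'' a M
  refine ⟨z₀, fun J a₀ w₀ z i j D q κ Sl hz hpl hO P E hE => ?_⟩
  have hfv : ∀ ω, E ω → ∃ V : ℕ → PN, TriN V ∧ (∀ l, (V l).totalDegree ≤ K') ∧
      (∀ l ≤ n, eval (D.X ω) (V l) = D.X ω l) ∧ ∀ i < M, ∀ j < M, ∀ l ≤ n,
        nrm (D.g i j) (1 / 2) (chr V (fr D (i, j) ω l - V l)) ≤ exp (C * z) / 2 ^ D.g i j l :=
    fun ω hω => (hE ω hω).2.1.fv
  choose! V hV using hfv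
  exact ⟨_, hz₀ gam J a₀ w₀ z i j D q κ Sl hz hpl hO P E
    (fun ω hω => ⟨(hE ω hω).1, (hE ω hω).2.2⟩) V hV⟩

end Pool.TCO
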