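import Pool.Agent.H38.TC.Geo

/-!
# TC: own slopes at several places

`sS_unit`: change of the units, exact. `cel_scl`: the own slopes do not change, up to `1 / Y`, if a
function of the time is added to the frame. `SV_scl`: the own slopes over a frame at `(i', j)` are
multiples of those over a frame at `(i, j)`, if the frames differ by a function of the time.
-/

set_option autoImplicit false

namespace Pool.TCO

open Finset Real MvPolynomial
open Pool.Agent.H49.Ent Pool.Agent.H32.Dense Pool.STK Pool.STAT Pool.MIC.Frm Pool.MIC7 Pool.FRM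
open Pool.GSD Pool.TC Pool.P4O
open Pool.BFL (Pb)
open Pool.P4 (t0 rt pp PthC FraC bb ze zt z0 GoodS FrP exp_mz)

theorem TT_unit (Sl : ℕ → Prop) (c c' : ℕ → ℕ → ℝ) (ρ : ℕ → ℝ) (hρ : ∀ l, ρ l ≠ 0)
    (h : ∀ u m, c' u m = ρ u / ρ m * c u m) (k : ℕ) :
    ∀ u, TT Sl c' u k = ρ u / ρ k * TT Sl c u k := by
  intro u
  induction u using Nat.strong_induction_on with
  | _ u ih =>
    by_cases hu : Sl u
    · rw [TT_sl c' hu, TT_sl c hu]
      split_ifs with h1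
      · rw [h1, div_self (hρ k), one_mul]
      · rw [mul_zero]
    · rw [TT_gr c' hu, TT_gr c hu, Finset.mul_sum]
      refine Finset.sum_congr rfl fun m hm => ?_
      rw [Finset.mem_Ico] at hm
      rw [ih m hm.2, h]
      have := hρ m
      have := hρ k
      field_simp

/-- The ratio of the units. -/
noncomputable def rho (g g' : ℕ → ℕ) (l : ℕ) : ℝ := 2 ^ g' l / 2 ^ g l

theorem rho_pos (g g' : ℕ → ℕ) (l : ℕ) : 0 < rho g g' l := by
  unfold rho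
  positivity

/-- **Change of the units**, exact. -/
theorem sS_unit (n : ℕ) (Sl : ℕ → Prop) (g g' : ℕ → ℕ) (P V : ℕ → PN) (u k : ℕ) :
    sS n Sl g' P V u k = rho g g' u / rho g g' k * sS n Sl g P V u k := by
  unfold sS SS
  split_ifs with h
  · refine TT_unit Sl _ _ (rho g g') (fun l => (rho_pos g g' l).ne') (fun u m => ?_) k u
    unfold lc rho
    field_simp
  · rw [mul_zero]

theorem nat_add {g : ℕ → ℕ} {P P' : ℕ → PN} {l : ℕ} {α : ℝ} (h : P' l = P l + C α) (b : ℕ → ℝ) :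
    nat g P' b l = nat g P b l - 2 ^ g l * α := by
  unfold nat
  rw [h, map_add, eval_C]
  ring

open Classical in
/-- **A function of the time added to the frame.** -/
theorem cel_scl (n K a : ℕ) (ha : 1 ≤ a) : ∃ (a' : ℕ) (c₀ : ℝ), ∀ (E t σ Y : ℝ)
    (g g₀ gR gS : ℕ → ℕ) (Sl : ℕ → Prop) (P P' V A B : ℕ → PN) (x : ℕ → ℝ), 1 ≤ E → c₀ ≤ E →
    Cel n K a E t σ Y g g₀ gR gS Sl P V A B x → Cel n K a E t σ Y g g₀ gR gS Sl P' V A B x →
    (∀ l, 1 ≤ l → ∃ α : ℝ, P' l = P l + C α) → ∀ u, 1 ≤ u → u ≤ n → ¬ Sl u →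
      ∀ k, Sl k → |sS n Sl g P' V u k - sS n Sl g P V u k| ≤ E ^ a' / Y := by
  obtain ⟨a₁, c₁, h1⟩ := cel_b n K a
  refine ⟨3 * a₁ + 2, max c₁ 2, ?_⟩
  intro E t σ Y g g₀ gR gS Sl P P' V A B x hE hc hC hC' hα u hu1 hun hSu
  have hα' : ∃ α : ℕ → ℝ, ∀ l, 1 ≤ l → P' l = P l + C (α l) := by
    choose! α hα using hα
    exact ⟨α, hα⟩
  obtain ⟨α, hα⟩ := hα'
  have hc1 : c₁ ≤ E := (le_max_left _ _).trans hc
  have hE2 : 2 ≤ E := (le_max_right _ _).trans hc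
  have hY0 : 0 < Y := by linarith [hC.Y1]
  have hE3 : E ≤ E ^ 3 := by
    calc E = E ^ 1 := (pow_one E).symm
      _ ≤ E ^ 3 := pw hE (by norm_num)
  have ha3 : 3 * E ^ a ≤ (E ^ 3) ^ a := by
    rw [← pow_mul]
    calc 3 * E ^ a ≤ E ^ 2 * E ^ a := mul_le_mul_of_nonneg_right (by nlinarith) (by positivity)
      _ = E ^ (2 + a) := (pow_add _ _ _).symm
      _ ≤ E ^ (3 * a) := pw hE (by omega)
  have q1 : (1 : ℝ) ≤ E ^ a := pw1 hE a
  have hαb : ∀ l, 1 ≤ l → l ≤ n → |2 ^ g l * α l| ≤ 2 * E ^ a := by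
    intro l hl1 hln
    have e1 := hC.xP l hl1 hln
    have e2 := hC'.xP l hl1 hln
    rw [nat_add (hα l hl1)] at e2
    rw [abs_le] at e1 e2 ⊢
    constructor <;> linarith
  obtain ⟨c', hc'⟩ : ∃ c' : ℝ, c' = sN n Sl g P' V x u + 2 ^ g u * α u -
      ∑ k ∈ (range n).filter Sl, sS n Sl g P' V u k * (2 ^ g k * α k) := ⟨_, rfl⟩
  -- one point
  have key : ∀ ζ : ℕ → ℝ, (∀ l, |ζ l| ≤ 1) → ∃ y : ℝ,
      |y - (sN n Sl g P V x u + ∑ k ∈ (range n).filter Sl, sS n Sl g P V u k * ζ k)| ≤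
        (E ^ 3) ^ a₁ / Y ∧
      |y - (c' + ∑ k ∈ (range n).filter Sl, sS n Sl g P' V u k * ζ k)| ≤
        (E ^ 3) ^ a₁ / Y := by
    intro ζ hζ
    obtain ⟨b, hb0, hbs, hbg⟩ := mkpt g Sl hC.hP hC.hA ζ
    have e1 := h1 E (E ^ 3) t σ Y g g₀ gR gS Sl P V A B x hE hc1 hE3 hC b hb0
      (fun l h3 h4 h5 => by
        rw [hbs l h3 h5]
        refine (hζ l).trans ?_
        linarith)
      (fun l h3 _ h5 => hbg l h3 h5) u hu1 hun hSu
    have e2 := h1 E (E ^ 3) t σ Y g g₀ gR gS Sl P' V A B x hE hc1 hE3 hC' b hb0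
      (fun l h3 h4 h5 => by
        rw [nat_add (hα l h3), hbs l h3 h5]
        refine (abs_sub _ _).trans ?_
        have := hζ l
        have := hαb l h3 h4
        linarith)
      (fun l h3 _ h5 => hbg l h3 h5) u hu1 hun hSu
    refine ⟨nat g P b u, ?_, ?_⟩
    · have e3 : ∑ k ∈ (range n).filter Sl, sS n Sl g P V u k * nat g P b k =
          ∑ k ∈ (range n).filter Sl, sS n Sl g P V u k * ζ k :=
        Finset.sum_congr rfl fun k hk => by
          rw [hbs k (hC.hSl k (Finset.mem_filter.1 hk).2).1 (Finset.mem_filter.1 hk).2]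
      rw [e3] at e1
      exact e1
    · have e3 : ∑ k ∈ (range n).filter Sl, sS n Sl g P' V u k * nat g P' b k =
          ∑ k ∈ (range n).filter Sl, sS n Sl g P' V u k * ζ k -
          ∑ k ∈ (range n).filter Sl, sS n Sl g P' V u k * (2 ^ g k * α k) := by
        rw [← Finset.sum_sub_distrib]
        refine Finset.sum_congr rfl fun k hk => ?_
        have hk1 := (hC.hSl k (Finset.mem_filter.1 hk).2).1
        rw [nat_add (hα k hk1), hbs k hk1 (Finset.mem_filter.1 hk).2]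
        ring
      rw [e3, nat_add (hα u hu1) b] at e2
      refine le_trans (le_of_eq ?_) e2
      rw [hc']
      unfold sN
      congr 1
      ring
  have f : 4 * ((E ^ 3) ^ a₁ / Y) ≤ E ^ (3 * a₁ + 2) / Y := by
    rw [← mul_div_assoc]
    refine div_le_div_of_nonneg_right ?_ hY0.le
    rw [pow_add, mul_comm, ← pow_mul]
    refine mul_le_mul_of_nonneg_left ?_ (by positivity)
    nlinarith
  have f0 : 0 ≤ (E ^ 3) ^ a₁ / Y := by positivity
  obtain ⟨y, h2, h3⟩ := key (fun _ => 0) (fun l => by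
    rw [abs_zero]
    exact zero_le_one)
  simp only [mul_zero, Finset.sum_const_zero, add_zero] at h2 h3
  intro k hk
  obtain ⟨y', h5, h6⟩ := key (fun l => if l = k then 1 else 0) (fun l => by
    split_ifs
    · rw [abs_one]
    · rw [abs_zero]
      exact zero_le_one)
  rw [sum_sing hC.hSl hk (x := fun l => if l = k then (1 : ℝ) else 0) (fun _ _ => rfl)] at h5 h6
  refine le_trans ?_ f
  rw [abs_le] at h2 h3 h5 h6 ⊢
  constructor <;> linarith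

/-- A frame at `(i', j)` is a frame at `(i, j)`, `i ≤ i'`. -/
theorem frp_le {D : NDat2} {n K' z i i' j r : ℕ} {C : ℝ} {P : ℕ → PN} {ω : D.Ω} (hi : i ≤ i')
    (h : FrP D n K' z i' j r C P ω) : FrP D n K' z i j r C P ω :=
  ⟨h.tri, h.deg, fun i₁ h1 l hl => h.near i₁ (h1.trans hi) l hl⟩

/-- The ratio of the units of two places. -/
theorem rho_le {D : NDat2} {n K J a₀ w₀ z M : ℕ} {lam gam : ℕ → ℝ} {κ C₁ : ℝ} {q : D.Ω → ℝ}
    (hO : D.Ok2 n K J a₀ w₀ z M lam gam κ C₁ q) (hlam : ∀ l, 1 ≤ l → l ≤ n → lam l = 1)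
    {i i' j : ℕ} (hi : i ≤ M) (hi' : i' ≤ M) (hj : j ≤ M) (hC₁ : 0 ≤ C₁) {u k : ℕ} (hu1 : 1 ≤ u)
    (hun : u ≤ n) (hk1 : 1 ≤ k) (hkn : k ≤ n) :
    rho (D.g i j) (D.g i' j) u / rho (D.g i j) (D.g i' j) k ≤ exp (4 * C₁ * z) := by
  have hg : ∀ i₁ ≤ M, ∀ l, 1 ≤ l → l ≤ n →
      |(D.g i₁ j l : ℝ) - D.g 0 0 l - ((i₁ : ℝ) + gam l * j) * z| ≤ C₁ * z := by
    intro i₁ hi₁ l hl1 hln
    have := hO.hom i₁ hi₁ j hj l hl1 hln
    rw [hlam l hl1 hln, one_mul] at this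
    exact this
  have e1 := hg i hi u hu1 hun
  have e2 := hg i' hi' u hu1 hun
  have e3 := hg i hi k hk1 hkn
  have e4 := hg i' hi' k hk1 hkn
  rw [abs_le] at e1 e2 e3 e4
  have e5 := lev_le (p := D.g i' j u + D.g i j k) (q := D.g i j u + D.g i' j k)
    (s := 4 * C₁ * z) (by push_cast; nlinarith [e1.1, e2.2, e3.2, e4.1]) (by positivity)
  unfold rho
  rw [div_div_div_eq, div_le_iff₀ (by positivity), ← pow_add, ← pow_add]
  exact e5

open Classical in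
/-- **The own slopes over two frames which differ by a function of the time**, at two places of the
same column. -/
theorem SV_scl (n K K' : ℕ) (lam : ℕ → ℝ) (C₁ C : ℝ) (hC₁ : 1 ≤ C₁) (hC : 0 ≤ C)
    (hlam : ∀ l, 1 ≤ l → l ≤ n → lam l = 1) : ∃ C' : ℝ, 1 ≤ C' ∧
    ∀ (y r ρ r'' a M : ℕ), ∃ z₀ : ℕ, ∀ (gam : ℕ → ℝ) (J a₀ w₀ z i i' j : ℕ) (D : NDat2)
      (q : D.Ω → ℝ) (κ : ℝ) (Sl : ℕ → Prop),
      z₀ ≤ z → OwnP n gam Sl y r ρ r'' a M i j → i ≤ i' → i' ≤ M →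
      D.Ok2 n K J a₀ w₀ z M lam gam κ C₁ q →
      ∀ (P P' : D.Γ × D.Γ → ℕ → PN) (E : D.Ω → Prop),
      (∀ ω, E ω → 0 < q ω ∧ FrP D n K' z i j r C (P (bb D i j r ω)) ω ∧
        FrP D n K' z i' j r C (P' (bb D i' j r ω)) ω) →
      (∀ ω, E ω → ∀ l, 1 ≤ l → ∃ α : ℝ,
        fz (D.X ω 0) (P' (bb D i' j r ω)) l = fz (D.X ω 0) (P (bb D i j r ω)) l +
          MvPolynomial.C α) →
      ∀ V : D.Ω → ℕ → PN, OwnFr D n K' z M C E V →
      ∀ ω, E ω → ∀ u, 1 ≤ u → u ≤ n → ¬ Sl u → ∀ k, Sl k →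
        |SV D n i' j r Sl E P' V ω u k - rho (D.g i j) (D.g i' j) u / rho (D.g i j) (D.g i' j) k *
          SV D n i j r Sl E P V ω u k| ≤ exp (C' * z) / 2 ^ (y * z) := by
  obtain ⟨a, c₀, ha, h0⟩ := mk_cel n K K' C₁ C hC₁ hC
  obtain ⟨aS, cS, hS⟩ := cel_scl n (max K K') a ha
  refine ⟨4 * C₁ + aS, by have : (0 : ℝ) ≤ aS := Nat.cast_nonneg aS
                          linarith, ?_⟩
  intro y r ρ r'' aa M
  obtain ⟨z₀, hz₀⟩ := exists_nat_ge (max c₀ cS)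
  refine ⟨z₀, ?_⟩
  intro gam J a₀ w₀ z i i' j D q κ Sl hz hpl hii hi'M hO P P' E hE hα V hV ω hω u hu1 hun hSu k hk
  have hzE : (z : ℝ) + 1 ≤ exp z := Real.add_one_le_exp _
  have hzz : (z₀ : ℝ) ≤ z := by exact_mod_cast hz
  have hcE : max c₀ cS ≤ exp (z : ℝ) := by linarith
  obtain ⟨hc0, hcS⟩ := max_le_iff.1 hcE
  have hE1 : 1 ≤ exp (z : ℝ) := Real.one_le_exp (Nat.cast_nonneg z)
  have c1 := h0 lam gam Sl y r ρ r'' aa M J a₀ w₀ z i j D q κ (P (bb D i j r ω)) (V ω) ω hlam hc0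
    hpl hO (hE ω hω).1 (hV ω hω) (hE ω hω).2.1
  have c2 := h0 lam gam Sl y r ρ r'' aa M J a₀ w₀ z i j D q κ (P' (bb D i' j r ω)) (V ω) ω hlam
    hc0 hpl hO (hE ω hω).1 (hV ω hω) (frp_le hii (hE ω hω).2.2)
  have e1 := hS _ _ _ _ _ _ _ _ _ _ _ _ _ _ _ hE1 hcS c1 c2 (hα ω hω) u hu1 hun hSu k hk
  have hk1 := hpl.in1 k hk
  have e2 := rho_le hO hlam (i := i) (i' := i') (j := j) (by have := hpl.i2; omega) hi'M
    (by have := hpl.j2; omega) (by linarith) hu1 hun hk1.1 hk1.2.le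
  have e3 : (0 : ℝ) < rho (D.g i j) (D.g i' j) u / rho (D.g i j) (D.g i' j) k :=
    div_pos (rho_pos _ _ _) (rho_pos _ _ _)
  unfold SV
  rw [if_pos hω, if_pos hω, sS_unit n Sl (D.g i j) (D.g i' j), ← mul_sub, abs_mul,
    abs_of_pos e3]
  calc rho (D.g i j) (D.g i' j) u / rho (D.g i j) (D.g i' j) k *
        |sS n Sl (D.g i j) (fz (D.X ω 0) (P' (bb D i' j r ω))) (fz (D.X ω 0) (V ω)) u k -
          sS n Sl (D.g i j) (fz (D.X ω 0) (P (bb D i j r ω))) (fz (D.X ω 0) (V ω)) u k|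
      ≤ exp (4 * C₁ * z) * (exp z ^ aS / 2 ^ (y * z)) :=
        mul_le_mul e2 e1 (abs_nonneg _) (exp_pos _).le
    _ = exp ((4 * C₁ + aS) * z) / 2 ^ (y * z) := by
        rw [← Real.exp_nat_mul, ← mul_div_assoc, ← Real.exp_add, add_mul]

end Pool.TCO
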